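import Pool.Agent.H75.CX.Vp1

/-!
# [H75 CX Vp3] virtually polycyclic groups: the orders of the finite subgroups are bounded

`fin_bd`: induction on `n` (`VPn n A`). `n = 0`: one element. Virtually cyclic `B`: `⟨v⟩` of finite index `m`; if `v` has finite order `B` is finite; otherwise a finite subgroup `F` meets `⟨v⟩` trivially, so `F` embeds in the
cosets, at most `m` elements. Step: `N` normal, `f : A → A ⧸ N`: `|F| ≤ |F ⊓ N| |f F|`.
`fin_bd'`: the version for a subgroup `E` and finite subgroups of it.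
-/

set_option autoImplicit false

namespace Pool.Agent.H75.CX

open Pool.Agent.H98.FJ Pool.Agent.H76.VC

private theorem vc_fin_bd {B : Type} [Group B] (h : VirtuallyCyclic B) :
    ∃ M : ℕ, ∀ F : Subgroup B, Finite F → Nat.card F ≤ M := by
  obtain ⟨M, hM⟩ := vc_bound (E := (⊤ : Subgroup B))
    (vc_of_injective (Subgroup.subtype ⊤) (Subgroup.subtype_injective _) h)
  refine ⟨M, fun F hF => ?_⟩
  obtain ⟨s, hs, hs'⟩ := hM F le_top (by
    intro x hx
    have h1 : IsOfFinOrder (⟨x, hx⟩ : F) := isOfFinOrder_of_finite _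
    exact F.isOfFinOrder_coe.2 h1)
  refine le_trans ?_ hs
  have h2 : (F : Set B) ⊆ (s : Set B) := fun x hx => hs' x hx
  have h3 := Set.ncard_le_ncard h2 s.finite_toSet
  rw [Set.ncard_coe_finset] at h3
  exact h3

private theorem vpn_fin_bd (n : ℕ) : ∀ (A : Type) [Group A], VPn n A → ∃ M : ℕ, ∀ F : Subgroup A, Finite F → Nat.card F ≤ M := by
  induction n with
  | zero =>
    intro A _ h
    have hs : Subsingleton A := h
    refine ⟨1, fun F _ => ?_⟩
    have : Subsingleton F := inferInstance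
    exact Finite.card_le_one_iff_subsingleton.2 this
  | succ n ih =>
    rintro A _ ⟨N, hN, h1, h2⟩
    obtain ⟨M1, hM1⟩ := ih N h1
    obtain ⟨M2, hM2⟩ := vc_fin_bd h2
    refine ⟨M1 * M2, fun F hF => ?_⟩
    let g : F →* A ⧸ N := (QuotientGroup.mk' N).comp F.subtype
    have hcard : Nat.card F = Nat.card (F ⧸ g.ker) * Nat.card g.ker := Subgroup.card_eq_card_quotient_mul_card_subgroup g.ker
    have h3 : Nat.card (F ⧸ g.ker) = Nat.card g.range := Nat.card_congr (QuotientGroup.quotientKerEquivRange g).toEquiv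
    have hgr : Finite g.range := Finite.of_surjective g.rangeRestrict g.rangeRestrict_surjective
    have h4 : Nat.card g.range ≤ M2 := hM2 g.range hgr
    have hfin : Finite (F.subgroupOf N) := by
      refine Finite.of_injective (fun x : F.subgroupOf N => (⟨x.1.1, Subgroup.mem_subgroupOf.1 x.2⟩ : F)) ?_
      intro x y hxy
      have h5 : x.1.1 = y.1.1 := congrArg (fun z : F => (z : A)) hxy
      exact Subtype.ext (Subtype.ext h5)
    have h5 : Nat.card g.ker ≤ Nat.card (F.subgroupOf N) := by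
      have hmem : ∀ x : g.ker, x.1.1 ∈ N := by
        intro x
        have h6 : g x.1 = 1 := x.2
        exact (QuotientGroup.eq_one_iff _).1 h6
      refine Nat.card_le_card_of_injective (fun x : g.ker => (⟨⟨x.1.1, hmem x⟩, Subgroup.mem_subgroupOf.2 x.1.2⟩ : F.subgroupOf N)) ?_
      intro x y hxy
      have h6 : x.1.1 = y.1.1 := congrArg (fun z : F.subgroupOf N => z.1.1) hxy
      exact Subtype.ext (Subtype.ext h6)
    have h6 : Nat.card (F.subgroupOf N) ≤ M1 := hM1 _ hfin
    rw [hcard, h3, mul_comm]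
    exact Nat.mul_le_mul (h5.trans h6) h4

theorem fin_bd {A : Type} [Group A] (h : VP A) : ∃ M : ℕ, ∀ F : Subgroup A, Finite F → Nat.card F ≤ M := by
  obtain ⟨n, hn⟩ := h
  exact vpn_fin_bd n A hn

theorem fin_bd' {G : Type} [Group G] {E : Subgroup G} (h : VP E) :
    ∃ M : ℕ, ∀ F : Subgroup G, F ≤ E → (F : Set G).Finite → (F : Set G).ncard ≤ M := by
  obtain ⟨M, hM⟩ := fin_bd h
  refine ⟨M, fun F hFE hF => ?_⟩
  have hFf : Finite F := hF
  have hfin : Finite (F.subgroupOf E) := by
    refine Finite.of_injective (fun x : F.subgroupOf E => (⟨x.1.1, Subgroup.mem_subgroupOf.1 x.2⟩ : F)) ?_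
    intro x y hxy
    have h5 : x.1.1 = y.1.1 := congrArg (fun z : F => (z : G)) hxy
    exact Subtype.ext (Subtype.ext h5)
  have h1 := hM (F.subgroupOf E) hfin
  have h2 : Nat.card F ≤ Nat.card (F.subgroupOf E) := by
    refine Nat.card_le_card_of_injective (fun x : F => (⟨⟨x.1, hFE x.2⟩, Subgroup.mem_subgroupOf.2 x.2⟩ : F.subgroupOf E)) ?_
    intro x y hxy
    have h6 : x.1 = y.1 := congrArg (fun z : F.subgroupOf E => z.1.1) hxy
    exact Subtype.ext h6
  exact h2.trans h1

end Pool.Agent.H75.CX
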