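import Pool.Agent.H75.CX.Vp1

/-!
# [H75 CX Vp2] virtually polycyclic groups: chains

`vc_jump`: in a virtually cyclic group `B`, `P ≤ B`, `P' ≤ P` of infinite index (`P'.relIndex P = 0`): `P'` is finite. (Let `⟨v⟩` have finite index. If `v` has finite order `B` is finite. Otherwise, if `P'` is
infinite, `P' ∩ ⟨v⟩ ≠ 1` has finite index in `⟨v⟩`, hence in `B`, hence `P'` has finite index in `B`.) `relIndex_map_comap`: for a homomorphism `f : A → B`, `P' ≤ P ≤ A`: if `P' ⊓ f.ker` has finite index in `P ⊓ f.ker` and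
`P'.map f` has finite index in `P.map f` then `P'` has finite index in `P` (`P' ≤ P' (P ⊓ ker) ≤ P`).
`ch_vpn`: statement for all groups `A` and the chains of subgroups of `A` by induction on `n`. Let `N` be normal, `VPn n N`, `f : A → A ⧸ N`. If the index `i` is infinite then either it is infinite
for the chain `P i ⊓ N` (subgroups of `N`; at most `n` of these), or for the chain `(P i).map f` in the virtually cyclic group (at most one: after the first one the groups are finite and all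
indices are finite). `ch_sub`: for `E ≤ G`: the chain `(P i).subgroupOf E`, `Subgroup.relIndex_subgroupOf`.
-/

set_option autoImplicit false

namespace Pool.Agent.H75.CX

open Pool.Agent.H98.FJ Pool.Agent.H76.VC

private theorem rel_fin {G : Type} [Group G] {K L : Subgroup G} (h : K.relIndex L ≠ 0) :
    ∃ s : Set G, s.Finite ∧ (∀ t ∈ s, t ∈ L) ∧ ∀ g ∈ L, ∃ t ∈ s, t⁻¹ * g ∈ K := by
  have hf : (K.subgroupOf L).FiniteIndex := ⟨h⟩
  have hfin : Finite (L ⧸ K.subgroupOf L) := inferInstance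
  refine ⟨Set.range fun q : L ⧸ K.subgroupOf L => ((q.out : L) : G), Set.finite_range _, ?_, fun g hg => ?_⟩
  · rintro _ ⟨q, rfl⟩
    exact q.out.2
  · refine ⟨_, ⟨(QuotientGroup.mk (⟨g, hg⟩ : L) : L ⧸ K.subgroupOf L), rfl⟩, ?_⟩
    have h1 : (QuotientGroup.mk (QuotientGroup.mk (⟨g, hg⟩ : L) : L ⧸ K.subgroupOf L).out : L ⧸ K.subgroupOf L) =
        QuotientGroup.mk (⟨g, hg⟩ : L) := QuotientGroup.out_eq' _
    rw [QuotientGroup.eq, Subgroup.mem_subgroupOf] at h1
    exact h1

private theorem rel_of_fin {G : Type} [Group G] {K L : Subgroup G} {s : Set G} (hs : s.Finite)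
    (h : ∀ g ∈ L, ∃ t ∈ s, t⁻¹ * g ∈ K) : K.relIndex L ≠ 0 := by
  have hs' : Finite s := hs
  choose! t ht1 ht2 using h
  have hfin : Finite (L ⧸ K.subgroupOf L) := by
    refine Finite.of_injective (fun q : L ⧸ K.subgroupOf L => (⟨t ((q.out : L) : G), ht1 _ q.out.2⟩ : s)) ?_
    intro q q' e
    have e' : t ((q.out : L) : G) = t ((q'.out : L) : G) := congrArg Subtype.val e
    have h1 := ht2 _ q.out.2
    have h2 := ht2 _ q'.out.2
    rw [e'] at h1
    rw [← QuotientGroup.out_eq' q, ← QuotientGroup.out_eq' q', QuotientGroup.eq, Subgroup.mem_subgroupOf]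
    have h3 := K.mul_mem (K.inv_mem h1) h2
    have h4 : ((t ((q'.out : L) : G))⁻¹ * ((q.out : L) : G))⁻¹ * ((t ((q'.out : L) : G))⁻¹ * ((q'.out : L) : G)) =
        ((q.out : L) : G)⁻¹ * ((q'.out : L) : G) := by group
    rw [h4] at h3
    exact h3
  exact Subgroup.index_ne_zero_of_finite

theorem vc_jump {B : Type} [Group B] (hB : VirtuallyCyclic B) {P P' : Subgroup B} (hP : P' ≤ P) (h : P'.relIndex P = 0) :
    Finite P' := by
  have hE : VirtuallyCyclic (⊤ : Subgroup B) :=
    vc_of_injective (Subgroup.subtype (⊤ : Subgroup B)) (Subgroup.subtype_injective _) hB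
  by_cases hfin : ∀ x ∈ P', IsOfFinOrder x
  · obtain ⟨n, hn⟩ := vc_bound hE
    obtain ⟨s, -, hs⟩ := hn P' le_top hfin
    exact (s.finite_toSet.subset fun x hx => hs x hx : (P' : Set B).Finite)
  · exfalso
    push Not at hfin
    obtain ⟨y, hy, hy'⟩ := hfin
    obtain ⟨s, hs⟩ := vc_index hE (y := y) trivial hy'
    refine rel_of_fin s.finite_toSet (K := P') (L := P) (fun g _ => ?_) h
    obtain ⟨t, ht, k, hk⟩ := hs g trivial
    refine ⟨t, ht, ?_⟩
    rw [hk, inv_mul_cancel_left]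
    exact P'.zpow_mem hy k

theorem relIndex_map_comap {A B : Type} [Group A] [Group B] (f : A →* B) {P P' : Subgroup A} (hP : P' ≤ P)
    (h1 : (P' ⊓ f.ker).relIndex (P ⊓ f.ker) ≠ 0) (h2 : (P'.map f).relIndex (P.map f) ≠ 0) : P'.relIndex P ≠ 0 := by
  obtain ⟨s1, hs1, hs1L, h1'⟩ := rel_fin h1
  obtain ⟨s2, hs2, hs2L, h2'⟩ := rel_fin h2
  have hlift : ∀ t ∈ s2, ∃ a ∈ P, f a = t := fun t ht => hs2L t ht
  choose! l hl1 hl2 using hlift
  refine rel_of_fin (s := Set.image2 (fun t u => l t * u) s2 s1) (hs2.image2 _ hs1) fun g hg => ?_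
  obtain ⟨t, ht, ht'⟩ := h2' (f g) (Subgroup.mem_map_of_mem f hg)
  obtain ⟨p, hp, hpt⟩ := ht'
  have hn : (l t)⁻¹ * g * p⁻¹ ∈ P ⊓ f.ker := by
    refine ⟨P.mul_mem (P.mul_mem (P.inv_mem (hl1 t ht)) hg) (P.inv_mem (hP hp)), ?_⟩
    have h5 : f ((l t)⁻¹ * g * p⁻¹) = 1 := by
      rw [map_mul, map_mul, map_inv, map_inv, hl2 t ht, hpt]
      group
    exact h5
  obtain ⟨u, hu, hu'⟩ := h1' _ hn
  refine ⟨l t * u, ⟨t, ht, u, hu, rfl⟩, ?_⟩
  have h3 := P'.mul_mem hu'.1 hp
  have h4 : u⁻¹ * ((l t)⁻¹ * g * p⁻¹) * p = (l t * u)⁻¹ * g := by group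
  rw [h4] at h3
  exact h3

theorem ch_vpn {n : ℕ} {A : Type} [Group A] (h : VPn n A) : Ch (fun _ : Subgroup A => True) n := by
  induction n generalizing A with
  | zero =>
    intro P _ _ k
    have hA : Subsingleton A := h
    have h1 : {i | i < k ∧ (P (i + 1)).relIndex (P i) = 0} = ∅ := by
      rw [Set.eq_empty_iff_forall_notMem]
      rintro i ⟨-, hi⟩
      exact (Subgroup.index_ne_zero_of_finite (H := (P (i + 1)).subgroupOf (P i))) hi
    rw [h1, Set.ncard_empty]
  | succ n ih =>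
    intro P _ hP k
    obtain ⟨N, hN, hVN, hVC⟩ := h
    have h1 := ih hVN (fun i => (P i).subgroupOf N) (fun _ => trivial)
      (fun i => Subgroup.comap_mono (hP i)) k
    have hanti : ∀ i j, i ≤ j → P j ≤ P i := fun i j hij => antitone_nat_of_succ_le hP hij
    obtain ⟨S1, hS1⟩ : ∃ S1 : Set ℕ, S1 = {i | i < k ∧ ((P (i + 1)).subgroupOf N).relIndex ((P i).subgroupOf N) = 0} :=
      ⟨_, rfl⟩
    obtain ⟨S2, hS2⟩ : ∃ S2 : Set ℕ, S2 = {i | i < k ∧ ((P (i + 1)).map (QuotientGroup.mk' N)).relIndex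
      ((P i).map (QuotientGroup.mk' N)) = 0} := ⟨_, rfl⟩
    have hf1 : S1.Finite := by
      rw [hS1]
      exact (Set.finite_lt_nat k).subset fun i hi => hi.1
    have hf2 : S2.Finite := by
      rw [hS2]
      exact (Set.finite_lt_nat k).subset fun i hi => hi.1
    have h2 : S2.ncard ≤ 1 := by
      rw [Set.ncard_le_one hf2]
      have key : ∀ i ∈ S2, ∀ j ∈ S2, ¬ i < j := by
        intro i hi j hj hij
        rw [hS2] at hi hj
        have h3 := vc_jump hVC (Subgroup.map_mono (hP i)) hi.2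
        have h4 : (P j).map (QuotientGroup.mk' N) ≤ (P (i + 1)).map (QuotientGroup.mk' N) :=
          Subgroup.map_mono (hanti _ _ hij)
        have h5 : Finite ((P j).map (QuotientGroup.mk' N)) :=
          Finite.of_injective (Subgroup.inclusion h4) (Subgroup.inclusion_injective h4)
        exact (Subgroup.index_ne_zero_of_finite (H := ((P (j + 1)).map (QuotientGroup.mk' N)).subgroupOf
          ((P j).map (QuotientGroup.mk' N)))) hj.2
      intro i hi j hj
      by_contra hij
      rcases Nat.lt_or_gt_of_ne hij with h3 | h3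
      · exact key i hi j hj h3
      · exact key j hj i hi h3
    have h3 : {i | i < k ∧ (P (i + 1)).relIndex (P i) = 0} ⊆ S1 ∪ S2 := by
      rintro i ⟨hi, hi0⟩
      by_contra hcon
      rw [Set.mem_union, not_or, hS1, hS2] at hcon
      refine relIndex_map_comap (QuotientGroup.mk' N) (hP i) ?_ (fun h4 => hcon.2 ⟨hi, h4⟩) hi0
      rw [QuotientGroup.ker_mk']
      intro h4
      refine hcon.1 ⟨hi, ?_⟩
      rw [← Subgroup.inf_subgroupOf_right (P (i + 1)) N, ← Subgroup.inf_subgroupOf_right (P i) N,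
        Subgroup.relIndex_subgroupOf inf_le_right]
      exact h4
    refine (Set.ncard_le_ncard h3 (hf1.union hf2)).trans ((Set.ncard_union_le S1 S2).trans ?_)
    rw [hS1]
    exact Nat.add_le_add h1 h2

theorem ch_sub {n : ℕ} {G : Type} [Group G] {E : Subgroup G} (h : VPn n E) : Ch (fun P : Subgroup G => P ≤ E) n := by
  intro P hPE hP k
  have h1 := ch_vpn h (fun i => (P i).subgroupOf E) (fun _ => trivial) (fun i => Subgroup.comap_mono (hP i)) k
  have h2 : ∀ i, ((P (i + 1)).subgroupOf E).relIndex ((P i).subgroupOf E) = (P (i + 1)).relIndex (P i) :=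
    fun i => Subgroup.relIndex_subgroupOf (hPE i)
  simp only [h2] at h1
  exact h1

end Pool.Agent.H75.CX
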