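import Pool.Agent.H75.CX.Defs
import Pool.Agent.H76.VC.Cyc

/-!
# [H75 CX Vp1] virtually polycyclic groups: subgroups, quotients, extensions

`vc_surj`: the image of `zpowers v` is `zpowers (f v)`, of finite index. `vpn_inj`: induction on `n`; the subgroup `N.comap f` of `A` is normal, it embeds in `N`, and `A ⧸ N.comap f` embeds
in `B ⧸ N` (`Pool.Agent.H76.VC.vc_of_injective`). `vpn_surj`: `N.map f` is normal (surjective), `N → N.map f` is surjective, and so is `A ⧸ N → B ⧸ N.map f`. `vpn_succ`: `N = ⊤`.
`vp_ext`: `ker p` is normal and `G ⧸ ker p ≃ Q`.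
-/

set_option autoImplicit false

namespace Pool.Agent.H75.CX

open Pool.Agent.H98.FJ Pool.Agent.H76.VC

theorem vc_surj {A B : Type} [Group A] [Group B] (f : A →* B) (hf : Function.Surjective f) (h : VirtuallyCyclic A) :
    VirtuallyCyclic B := by
  obtain ⟨v, hv⟩ := h
  refine ⟨f v, ⟨?_⟩⟩
  have h1 : Subgroup.zpowers (f v) = (Subgroup.zpowers v).map f := (MonoidHom.map_zpowers f v).symm
  rw [h1]
  intro h0
  have h2 := Subgroup.index_map_dvd (Subgroup.zpowers v) hf
  rw [h0, zero_dvd_iff] at h2
  exact hv.index_ne_zero h2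

theorem vpn_inj {n : ℕ} {A B : Type} [Group A] [Group B] (f : A →* B) (hf : Function.Injective f) (h : VPn n B) :
    VPn n A := by
  induction n generalizing A B with
  | zero =>
    have h1 : Subsingleton B := h
    exact hf.subsingleton
  | succ n ih =>
    obtain ⟨N, hN, h1, h2⟩ := h
    refine ⟨N.comap f, inferInstance, ?_, ?_⟩
    · refine ih ((f.comp (Subgroup.subtype _)).codRestrict N (fun x => x.2)) ?_ h1
      intro a b hab
      exact Subtype.ext (hf (congrArg Subtype.val hab))
    · refine vc_of_injective (QuotientGroup.map (N.comap f) N f le_rfl) ?_ h2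
      rw [injective_iff_map_eq_one]
      intro x hx
      obtain ⟨a, rfl⟩ := QuotientGroup.mk_surjective x
      rw [QuotientGroup.map_mk, QuotientGroup.eq_one_iff] at hx
      rw [QuotientGroup.eq_one_iff]
      exact hx

theorem vpn_surj {n : ℕ} {A B : Type} [Group A] [Group B] (f : A →* B) (hf : Function.Surjective f) (h : VPn n A) :
    VPn n B := by
  induction n generalizing A B with
  | zero =>
    have h1 : Subsingleton A := h
    exact hf.subsingleton
  | succ n ih =>
    obtain ⟨N, hN, h1, h2⟩ := h
    have hM : (N.map f).Normal := Subgroup.Normal.map hN f hf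
    refine ⟨N.map f, hM, ?_, ?_⟩
    · exact ih (f.subgroupMap N) (f.subgroupMap_surjective N) h1
    · refine vc_surj (QuotientGroup.map N (N.map f) f (Subgroup.le_comap_map f N)) ?_ h2
      intro y
      obtain ⟨b, rfl⟩ := QuotientGroup.mk_surjective y
      obtain ⟨a, rfl⟩ := hf b
      exact ⟨(a : A ⧸ N), rfl⟩

theorem vpn_succ {n : ℕ} {G : Type} [Group G] (h : VPn n G) : VPn (n + 1) G := by
  refine ⟨⊤, inferInstance, vpn_inj (Subgroup.subtype ⊤) Subtype.val_injective h, ?_⟩
  have h1 : Subsingleton (G ⧸ (⊤ : Subgroup G)) := QuotientGroup.subsingleton_quotient_top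
  have h2 : Finite (G ⧸ (⊤ : Subgroup G)) := inferInstance
  exact ⟨1, inferInstance⟩

theorem vpn_mono {m n : ℕ} (hmn : m ≤ n) {G : Type} [Group G] (h : VPn m G) : VPn n G := by
  induction n, hmn using Nat.le_induction with
  | base => exact h
  | succ n _ ih => exact vpn_succ ih

theorem vp_inj {A B : Type} [Group A] [Group B] (f : A →* B) (hf : Function.Injective f) (h : VP B) : VP A := by
  obtain ⟨n, hn⟩ := h
  exact ⟨n, vpn_inj f hf hn⟩

theorem vp_surj {A B : Type} [Group A] [Group B] (f : A →* B) (hf : Function.Surjective f) (h : VP A) : VP B := by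
  obtain ⟨n, hn⟩ := h
  exact ⟨n, vpn_surj f hf hn⟩

/-- extensions of a virtually cyclic group by a virtually polycyclic group -/
theorem vp_ext {A B : Type} [Group A] [Group B] (p : A →* B) (hp : Function.Surjective p) (hk : VP p.ker)
    (hB : VirtuallyCyclic B) : VP A := by
  obtain ⟨n, hn⟩ := hk
  refine ⟨n + 1, p.ker, inferInstance, hn, ?_⟩
  exact vc_of_injective (QuotientGroup.quotientKerEquivOfSurjective p hp).toMonoidHom
    (QuotientGroup.quotientKerEquivOfSurjective p hp).injective hB

theorem vp_le {G : Type} [Group G] {A B : Subgroup G} (h : A ≤ B) (hB : VP B) : VP A :=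
  vp_inj (Subgroup.inclusion h) (Subgroup.inclusion_injective h) hB

end Pool.Agent.H75.CX
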