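import Pool.Agent.H75.CX.Vp1
import Pool.Agent.H92.VS.Main

/-!
# [H75 CX Vp4] virtually polycyclic groups are virtually solvable

`vc_fin_ext`: if `M` is a finite normal subgroup of `A` and `A ⧸ M` is virtually cyclic then `A` is virtually cyclic: let `a` be a preimage of `v`, `⟨v⟩` of finite index in `A ⧸ M`; the preimage of `⟨v⟩` is `M ⟨a⟩`, of finite index in `A`,
and `⟨a⟩` has finite index in `M ⟨a⟩`. `vs_ext`: let `N` be normal and virtually solvable, `A ⧸ N` virtually cyclic. `Pool.Agent.H92.VS.exists_radical` gives a solvable subgroup `M` of finite index of `N`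
which is characteristic (the largest normal solvable subgroup of `N`: invariant under the automorphisms of `N`), so (mapped to `A`) normal in `A`. `A ⧸ M` has the finite normal subgroup `N ⧸ M` with virtually cyclic quotient, so it is virtually
cyclic; the preimage of a cyclic subgroup of finite index is solvable (`M` solvable, quotient cyclic) of finite index. `vp_solv`: induction on `n`. `vp_mem`: `hC.index`.
-/

set_option autoImplicit false

namespace Pool.Agent.H75.CX

open Pool.Agent.H98.FJ Pool.Agent.H76.VC Pool.Agent.H92.VS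

theorem vs_ext {A : Type} [Group A] (N : Subgroup A) [N.Normal] (h : VirtSolv N) (hq : VirtuallyCyclic (A ⧸ N)) :
    VirtSolv A := by
  classical
  obtain ⟨M, hMn, hMf, hMs, hMmax⟩ := exists_radical h
  obtain ⟨v, hv⟩ := hq
  have hchar : ∀ (a : A) (m : N), m ∈ M → MulAut.conjNormal a m ∈ M := by
    intro a m hm
    have h1 : (M.map (MulAut.conjNormal a : MulAut N).toMonoidHom).Normal :=
      hMn.map _ (MulAut.conjNormal a : MulAut N).surjective
    have h2 : Group.IsSolvable (M.map (MulAut.conjNormal a : MulAut N).toMonoidHom) :=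
      Group.isSolvable_of_surjective ((MulAut.conjNormal a : MulAut N).toMonoidHom.subgroupMap_surjective M)
    exact hMmax _ h1 h2 ⟨m, hm, rfl⟩
  let M' : Subgroup A := M.map N.subtype
  have hM' : M'.Normal := by
    constructor
    rintro _ ⟨m, hm, rfl⟩ a
    exact ⟨MulAut.conjNormal a m, hchar a m hm, rfl⟩
  have hM's : Group.IsSolvable M' := Group.isSolvable_of_surjective (N.subtype.subgroupMap_surjective M)
  let π : A →* A ⧸ M' := QuotientGroup.mk' M'
  have hπ : Function.Surjective π := QuotientGroup.mk'_surjective M'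
  have hNn : (N.map π).Normal := (inferInstance : N.Normal).map π hπ
  have hNf : Finite (N.map π) := by
    have hle : ∀ x ∈ M, (π.subgroupMap N) x = 1 := by
      intro x hx
      apply Subtype.ext
      show π (x : A) = 1
      exact (QuotientGroup.eq_one_iff (x : A)).2 ⟨x, hx, rfl⟩
    have hs : Function.Surjective (QuotientGroup.lift M (π.subgroupMap N) hle) := by
      intro y
      obtain ⟨x, hx⟩ := π.subgroupMap_surjective N y
      exact ⟨QuotientGroup.mk x, hx⟩
    have hfq : Finite (N ⧸ M) := Subgroup.finite_quotient_of_finiteIndex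
    exact Finite.of_surjective _ hs
  let c : A →* MulAut (N.map π) := (MulAut.conjNormal (H := N.map π)).comp π
  have hfin : Finite (MulAut (N.map π)) := inferInstance
  have hc : c.ker.FiniteIndex := by
    have := Finite.of_injective _ (QuotientGroup.kerLift_injective c)
    exact Subgroup.finiteIndex_of_finite_quotient
  have hW : ((Subgroup.zpowers v).comap (QuotientGroup.mk' N)).FiniteIndex :=
    finiteIndex_comap' (QuotientGroup.mk' N) (Subgroup.zpowers v) hv
  let D : Subgroup A := c.ker ⊓ (Subgroup.zpowers v).comap (QuotientGroup.mk' N)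
  have hD : D.FiniteIndex := inferInstance
  refine ⟨D, hD, ?_⟩
  have hcyc : Group.IsSolvable (Subgroup.zpowers v) := by
    refine Group.isSolvable_of_comm fun a b => ?_
    obtain ⟨a, i, rfl⟩ := a
    obtain ⟨b, j, rfl⟩ := b
    apply Subtype.ext
    show v ^ i * v ^ j = v ^ j * v ^ i
    rw [← _root_.zpow_add, ← _root_.zpow_add, add_comm]
  let f : D →* Subgroup.zpowers v :=
    { toFun := fun x => ⟨QuotientGroup.mk' N x.1, x.2.2⟩
      map_one' := Subtype.ext (map_one (QuotientGroup.mk' N))
      map_mul' := fun x y => Subtype.ext (map_mul (QuotientGroup.mk' N) x.1 y.1) }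
  have hf : ∀ x : D, f x = 1 → x.1 ∈ N := by
    intro x hx
    have h1 : QuotientGroup.mk' N x.1 = 1 := congrArg Subtype.val hx
    exact (QuotientGroup.eq_one_iff x.1).1 h1
  let g : f.ker →* A ⧸ M' := (π.comp D.subtype).comp f.ker.subtype
  have hg : Group.IsSolvable g.range := by
    refine Group.isSolvable_of_comm fun a b => ?_
    obtain ⟨_, x, rfl⟩ := a
    obtain ⟨_, y, rfl⟩ := b
    apply Subtype.ext
    show π x.1.1 * π y.1.1 = π y.1.1 * π x.1.1
    have hy : π y.1.1 ∈ N.map π := ⟨y.1.1, hf y.1 y.2, rfl⟩
    have h1 : c x.1.1 = 1 := x.1.2.1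
    have h2 : c x.1.1 ⟨π y.1.1, hy⟩ = ⟨π y.1.1, hy⟩ := by
      rw [h1]
      rfl
    have h3 : π x.1.1 * π y.1.1 * (π x.1.1)⁻¹ = π y.1.1 := congrArg Subtype.val h2
    exact mul_inv_eq_iff_eq_mul.1 h3
  have hgk : Group.IsSolvable g.ker := by
    have hm : ∀ x : g.ker, x.1.1.1 ∈ M' := fun x => (QuotientGroup.eq_one_iff x.1.1.1).1 x.2
    let i : g.ker →* M' :=
      { toFun := fun x => ⟨x.1.1.1, hm x⟩
        map_one' := rfl
        map_mul' := fun x y => rfl }
    have hi : Function.Injective i := by
      intro x y hxy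
      apply Subtype.ext
      apply Subtype.ext
      apply Subtype.ext
      have h4 := congrArg (Subtype.val : M' → A) hxy
      exact h4
    exact Group.isSolvable_of_isSolvable_injective hi
  have hker : Group.IsSolvable f.ker :=
    Group.isSolvable_of_ker_le_range g.ker.subtype g.rangeRestrict (by
      rw [Subgroup.range_subtype, MonoidHom.ker_rangeRestrict])
  exact Group.isSolvable_of_ker_le_range f.ker.subtype f (by rw [Subgroup.range_subtype])

theorem vp_solv {A : Type} [Group A] (h : VP A) : VirtSolv A := by
  obtain ⟨n, h⟩ := h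
  induction n generalizing A with
  | zero =>
    have hs : Subsingleton A := h
    exact ⟨⊤, inferInstance, Group.isSolvable_of_comm fun a b => Subsingleton.elim _ _⟩
  | succ n ih =>
    obtain ⟨N, hN, h1, h2⟩ := h
    exact vs_ext N (ih h1) h2

theorem vp_mem {C : (G : Type) → [Group G] → Prop} (hC : Inherits C)
    (hS : ∀ (G : Type) [Group G], Group.IsSolvable G → C G) {A : Type} [Group A] (h : VP A) : C A := by
  obtain ⟨N, h1, h2⟩ := vp_solv h
  exact hC.index A N h1 (hS N h2)

end Pool.Agent.H75.CX
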