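import Pool.Agent.H75.CX.Man
import Pool.Agent.H75.CY.Com
import Pool.Agent.H54.PQ.Fin

/-!
# [H75 CX Fin] groups acting on trees with virtually polycyclic edge stabilisers: the final form

`Spl X P`: `P` is virtually an infinite cyclic group generated by an element which is split over the vertex stabilisers.
-/

set_option autoImplicit false

namespace Pool.Agent.H75.CX

open Pool.Agent.H98.FJ Pool.Agent.H93.TR Pool.Agent.H76.VC Pool.Agent.H76.GT Pool.Agent.H75.CY

/-- `P` is split: some `z` of infinite order generates a subgroup of finite index of `P`, the stabilisers of the edges which are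
fixed by a power `z ^ k`, `k ≠ 0`, are virtually cyclic, and `z` is split over the stabilisers of the vertices which are fixed by such
a power -/
def Spl {G V : Type} [Group G] [MulAction G V] (X : SimpleGraph V) (P : Subgroup G) : Prop :=
  ∃ z ∈ P, ¬ IsOfFinOrder z ∧ (Subgroup.zpowers z).relIndex P ≠ 0 ∧
    (∀ v w : V, X.Adj v w → (∃ k : ℤ, k ≠ 0 ∧ z ^ k • v = v ∧ z ^ k • w = w) → VirtuallyCyclic (Ps G v w)) ∧
    ∀ v : V, (∃ k : ℤ, k ≠ 0 ∧ z ^ k • v = v) → SplitIn (MulAction.stabilizer G v) z

theorem spl_mem {C : (G : Type) → [Group G] → Prop} (hC : Inherits C) (hE : Extension C) (hT : Transfer C)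
    (hS : ∀ (G : Type) [Group G], Group.IsSolvable G → C G) {G V : Type} [Group G] [MulAction G V]
    {X : SimpleGraph V} (hX : OnTree G X) (hv : ∀ v : V, C (MulAction.stabilizer G v)) {P : Subgroup G} {v0 w0 : V}
    (hP : P ≤ Ps G v0 w0) (h : Spl X P) : C (Subgroup.Commensurable.commensurator P) := by
  obtain ⟨z, hz, hz0, hzi, hEd, hs⟩ := h
  have hle : Subgroup.zpowers z ≤ P := by
    rw [Subgroup.zpowers_le]
    exact hz
  have hcm : Subgroup.Commensurable (Subgroup.zpowers z) P := by
    refine ⟨hzi, ?_⟩
    rw [Subgroup.relIndex_eq_one.2 hle]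
    exact one_ne_zero
  rw [← Subgroup.Commensurable.eq hcm]
  have h1 : Subgroup.Commensurable.commensurator (Subgroup.zpowers z) ≤ Com z := com_zpow hz0
  exact hC.of_injective (Subgroup.inclusion h1) (Subgroup.inclusion_injective h1)
    (com_split hC hE (Pool.Agent.H54.PQ.acylExt_of_transfer hC hT) hS hX hv hz0 (hP hz).1 hEd hs)

theorem ct_main {C : (G : Type) → [Group G] → Prop} (hC : Inherits C) (hE : Extension C) (hT : Transfer C)
    (hS : ∀ (G : Type) [Group G], Group.IsSolvable G → C G) {G V : Type} [Group G] [MulAction G V]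
    {X : SimpleGraph V} (hX : OnTree G X) (hv : ∀ v : V, C (MulAction.stabilizer G v))
    (hEd : ∀ v w : V, X.Adj v w → VP (Ps G v w)) :
    C G ↔ ∀ P : Subgroup G, Infinite P → (∃ v w : V, X.Adj v w ∧ P ≤ Ps G v w) → ¬ BalS P → ¬ Spl X P →
      C (Subgroup.Commensurable.commensurator P) := by
  constructor
  · intro h P _ _ _ _
    exact hC.sub G _ h
  · intro h
    refine main0 hC hT hS hX hv hEd ?_
    intro P hi hP
    by_cases h1 : BalS P
    · exact Or.inl h1
    · right
      by_cases h2 : Spl X P
      · obtain ⟨v, w, _, hvw⟩ := hP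
        exact spl_mem hC hE hT hS hX hv hvw h2
      · exact h P hi hP h1 h2

end Pool.Agent.H75.CX
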