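import Pool.Agent.H75.CX.Defs
import Pool.Agent.H76.VC.Defs

/-!
# [H75 CX Cc] the set of commensurability classes

`CC Q`: subgroups of `Q` up to commensurability (`Subgroup.Commensurable.equivalence`); `G` acts through `p : G →* Q` by conjugation (`Subgroup.Commensurable.conj`;
`ConjAct.toConjAct q • P`, a pointwise action). `stab_cc`: `commensurator_mem_iff`, `Quotient.eq`. `conj_ps`: `x ∈ q P q⁻¹` iff `q⁻¹ x q ∈ P` (`Subgroup.mem_smul_pointwise_iff_exists`,
`ConjAct.toConjAct_smul`). `zpow_com`: `h ^ c = h' ^ c'` has finite index in both groups (a cyclic group has finite index over a nontrivial power, `c`, `c' ≠ 0`: in a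
cyclic group generated by `h` the index of the subgroup generated by `h ^ c` divides `|c|`: the `h ^ i`, `0 ≤ i < |c|`, represent all cosets). `com_zpow`: `q ⟨h⟩ q⁻¹ ∩ ⟨h⟩`
has finite index in `⟨h⟩`, so it contains `h ^ n` for some `n ≠ 0` (`Subgroup.exists_pow_mem_of_relIndex_ne_zero`), `h ^ n = (q h q⁻¹) ^ m = q h ^ m q⁻¹`, and `m ≠ 0` as `h` has infinite order.
-/

set_option autoImplicit false

namespace Pool.Agent.H75.CX

open Pool.Agent.H98.FJ Pool.Agent.H76.VC

open scoped Pointwise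

/-- commensurability -/
def cst (Q : Type) [Group Q] : Setoid (Subgroup Q) := ⟨Subgroup.Commensurable, Subgroup.Commensurable.equivalence⟩

/-- the set of commensurability classes of subgroups -/
def CC (Q : Type) [Group Q] : Type := Quotient (cst Q)

/-- the class of a subgroup -/
def cl {Q : Type} [Group Q] (P : Subgroup Q) : CC Q := Quotient.mk (cst Q) P

theorem cl_eq {Q : Type} [Group Q] {P P' : Subgroup Q} : cl P = cl P' ↔ Subgroup.Commensurable P P' :=
  ⟨fun h => Quotient.exact (s := cst Q) h, fun h => Quotient.sound (s := cst Q) h⟩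

/-- the action by conjugation, through `p` -/
noncomputable def ccAct {G Q : Type} [Group G] [Group Q] (p : G →* Q) : MulAction G (CC Q) where
  smul g := Quotient.map' (fun P => ConjAct.toConjAct (p g) • P) (fun _ _ h => Subgroup.Commensurable.conj h _)
  one_smul := by
    rintro ⟨P⟩
    show Quotient.mk (cst Q) (ConjAct.toConjAct (p 1) • P) = Quotient.mk (cst Q) P
    rw [map_one, map_one, one_smul]
  mul_smul := by
    rintro g h ⟨P⟩
    show Quotient.mk (cst Q) (ConjAct.toConjAct (p (g * h)) • P) =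
      Quotient.mk (cst Q) (ConjAct.toConjAct (p g) • ConjAct.toConjAct (p h) • P)
    rw [map_mul, map_mul, mul_smul]

theorem smul_cl {G Q : Type} [Group G] [Group Q] (p : G →* Q) (g : G) (P : Subgroup Q) :
    (ccAct p).toSMul.smul g (cl P) = cl (ConjAct.toConjAct (p g) • P) := rfl

theorem stab_cc {G Q : Type} [Group G] [Group Q] (p : G →* Q) (g : G) (P : Subgroup Q) :
    g ∈ @MulAction.stabilizer G (CC Q) _ (ccAct p) (cl P) ↔ p g ∈ Subgroup.Commensurable.commensurator P := by
  show (ccAct p).toSMul.smul g (cl P) = cl P ↔ _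
  rw [smul_cl, cl_eq, Subgroup.Commensurable.commensurator_mem_iff]

private theorem mem_conj {Q : Type} [Group Q] (q z : Q) (P : Subgroup Q) :
    z ∈ ConjAct.toConjAct q • P ↔ q⁻¹ * z * q ∈ P := by
  rw [Subgroup.mem_pointwise_smul_iff_inv_smul_mem]
  have h : (ConjAct.toConjAct q)⁻¹ • z = q⁻¹ * z * q := by
    rw [← map_inv, ConjAct.toConjAct_smul, inv_inv]
  rw [h]

theorem conj_ps {Q V : Type} [Group Q] [MulAction Q V] (q : Q) (x y : V) :
    ConjAct.toConjAct q • Ps Q x y = Ps Q (q • x) (q • y) := by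
  ext z
  rw [mem_conj]
  unfold Ps
  rw [Subgroup.mem_inf, Subgroup.mem_inf, MulAction.mem_stabilizer_iff, MulAction.mem_stabilizer_iff,
    MulAction.mem_stabilizer_iff, MulAction.mem_stabilizer_iff]
  have h : ∀ v : V, (q⁻¹ * z * q) • v = v ↔ z • q • v = q • v := by
    intro v
    rw [mul_smul, mul_smul, inv_smul_eq_iff]
  rw [h, h]

theorem conj_zpowers {Q : Type} [Group Q] (q h : Q) :
    ConjAct.toConjAct q • Subgroup.zpowers h = Subgroup.zpowers (q * h * q⁻¹) := by
  ext z
  rw [mem_conj, Subgroup.mem_zpowers_iff, Subgroup.mem_zpowers_iff]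
  refine exists_congr fun k => ?_
  rw [conj_zpow]
  constructor
  · intro h1
    rw [h1]
    group
  · intro h1
    rw [← h1]
    group

private theorem zp_rel {Q : Type} [Group Q] (a : Q) {c : ℤ} (hc : c ≠ 0) :
    (Subgroup.zpowers (a ^ c)).relIndex (Subgroup.zpowers a) ≠ 0 := by
  have hfin : Finite (Subgroup.zpowers a ⧸ (Subgroup.zpowers (a ^ c)).subgroupOf (Subgroup.zpowers a)) := by
    refine Finite.of_surjective (fun i : Fin c.natAbs => (QuotientGroup.mk
      (⟨a ^ (i : ℕ), Subgroup.pow_mem _ (Subgroup.mem_zpowers a) _⟩ : Subgroup.zpowers a) :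
      Subgroup.zpowers a ⧸ (Subgroup.zpowers (a ^ c)).subgroupOf (Subgroup.zpowers a))) ?_
    intro x
    obtain ⟨⟨y, hy⟩, rfl⟩ := QuotientGroup.mk_surjective x
    obtain ⟨k, hk⟩ := Subgroup.mem_zpowers_iff.1 hy
    have h0 : 0 ≤ k % c := Int.emod_nonneg k hc
    have h1 : k % c < |c| := Int.emod_lt_abs k hc
    have h1' : ((c.natAbs : ℕ) : ℤ) = |c| := Int.natCast_natAbs c
    refine ⟨⟨(k % c).toNat, by omega⟩, ?_⟩
    rw [QuotientGroup.eq, Subgroup.mem_subgroupOf]
    show (a ^ (k % c).toNat)⁻¹ * y ∈ Subgroup.zpowers (a ^ c)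
    refine Subgroup.mem_zpowers_iff.2 ⟨k / c, ?_⟩
    have h2 : a ^ (k % c).toNat = a ^ (k % c) := by
      rw [← zpow_natCast, Int.toNat_of_nonneg h0]
    rw [h2, ← hk, ← zpow_mul, ← zpow_neg, ← zpow_add]
    congr 1
    have h3 := Int.emod_add_mul_ediv k c
    omega
  unfold Subgroup.relIndex
  exact Subgroup.index_ne_zero_of_finite

private theorem zp_com {Q : Type} [Group Q] (a : Q) {c : ℤ} (hc : c ≠ 0) :
    Subgroup.Commensurable (Subgroup.zpowers a) (Subgroup.zpowers (a ^ c)) := by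
  refine ⟨?_, zp_rel a hc⟩
  have h : Subgroup.zpowers (a ^ c) ≤ Subgroup.zpowers a :=
    Subgroup.zpowers_le.2 (Subgroup.zpow_mem _ (Subgroup.mem_zpowers a) c)
  rw [Subgroup.relIndex_eq_one.2 h]
  exact one_ne_zero

theorem zpow_com {Q : Type} [Group Q] {h h' : Q} {c c' : ℤ} (hc : c ≠ 0) (hc' : c' ≠ 0) (e : h ^ c = h' ^ c') :
    Subgroup.Commensurable (Subgroup.zpowers h) (Subgroup.zpowers h') := by
  have h1 := zp_com h hc
  rw [e] at h1
  exact h1.trans (zp_com h' hc').symm

theorem com_zpow {Q : Type} [Group Q] {h : Q} (hh : ¬ IsOfFinOrder h) :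
    Subgroup.Commensurable.commensurator (Subgroup.zpowers h) ≤ Com h := by
  intro g hg
  rw [Subgroup.Commensurable.commensurator_mem_iff, conj_zpowers] at hg
  obtain ⟨n, hn, -, hmem⟩ := Subgroup.exists_pow_mem_of_relIndex_ne_zero hg.1 (Subgroup.mem_zpowers h)
  obtain ⟨m, hm⟩ := Subgroup.mem_zpowers_iff.1 (Subgroup.mem_inf.1 hmem).1
  rw [conj_zpow] at hm
  refine mem_Com.2 ⟨m, n, ?_, by exact_mod_cast hn.ne', by rw [zpow_natCast]; exact hm⟩
  rintro rfl
  apply hh
  refine isOfFinOrder_iff_pow_eq_one.2 ⟨n, hn, ?_⟩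
  rw [← hm, zpow_zero, mul_one, mul_inv_cancel]

end Pool.Agent.H75.CX
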