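import Pool.Agent.H54.AX.Ln
import Pool.Agent.H54.AX.Cm
import Pool.Agent.H75.CX.Cc

/-!
# [H75 CX Ax] the axis of a translation, and its commensurator

`exists_line'`: as `Pool.Agent.H54.AX.exists_line` (Pool/Agent/H54/AX/Ln.lean), with `L i = f i` for `|i| ≤ m`. There `L i = h ^ (i / v) • f (i % v)` (for `v < 0` use `h⁻¹`): so
`L i = f i` for `0 ≤ i < |v|` and `h • L i = L (i + v)`. If `|i| ≤ m`: write `i = b + c v` with `0 ≤ b < |v|`; all `b + c' v` with `c'` between `0` and `c` are between `b` and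
`i`, so they have absolute value at most `m`, and by induction on `|c|` `L i = f i` (`h • f j = f (j + v)` for `|j| ≤ m`). Or: take the `L` of `exists_line`: it is not unique in
the statement, so copy the construction.
`com_vc'`: the same proof as `Pool.Agent.H54.AX.com_vc` (Pool/Agent/H54/AX/Cm.lean): the hypothesis `Acy` is used there only for `hFf` (the elements which fix `L 0` and `L k` are a finite
set): copy the proof.
`com_vc_at`: `exists_line'` gives `L` with `L i = f i` for `|i| ≤ m`; apply `com_vc'` to `fun i => L (i - b)`, `k = 2 b`. `h` has infinite order because `h ^ n • L 0 = L (n v)`.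
-/

set_option autoImplicit false

namespace Pool.Agent.H75.CX

open Pool.Agent.H98.FJ Pool.Agent.H93.TR Pool.Agent.H54.AX Pool.Agent.H76.VC

variable {Q V : Type} [Group Q] [MulAction Q V] {X : SimpleGraph V}

private theorem pos_line' (hX : OnTree Q X) {m M : ℤ} (hmM : m ≤ M) {f : ℤ → V}
    (hf : ∀ i j : ℤ, |i| ≤ M → |j| ≤ M → (X.dist (f i) (f j) : ℤ) = |i - j|) {g : Q} {n : ℤ} (hn : 0 < n)
    (hM : n + 2 ≤ m) (h1 : ∀ i : ℤ, -m ≤ i → i ≤ m - n → g • f i = f (i + n)) :
    ∃ L : ℤ → V, Line X L ∧ (∀ i, g • L i = L (i + n)) ∧ ∀ i, |i| ≤ m → L i = f i := by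
  obtain ⟨L, hL⟩ : ∃ L : ℤ → V, L = fun i => g ^ (i / n) • f (i % n) := ⟨_, rfl⟩
  have hn0 : n ≠ 0 := hn.ne'
  have hB : ∀ k : ℕ, ∀ r : ℤ, r = k → r ≤ n + 1 → ∀ c : ℤ, L (c * n + r) = g ^ c • f r := by
    intro k
    induction k using Nat.strong_induction_on with
    | _ k ih =>
      intro r hr hrn c
      rcases lt_or_ge r n with h | h
      · rw [hL]
        simp only
        have e1 : (c * n + r) / n = c := by
          rw [Int.add_comm, Int.add_mul_ediv_right _ _ hn0, Int.ediv_eq_zero_of_lt (by omega) h, zero_add]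
        have e2 : (c * n + r) % n = r := by
          rw [Int.add_comm, Int.add_mul_emod_self_right, Int.emod_eq_of_lt (by omega) h]
        rw [e1, e2]
      · have e1 : c * n + r = (c + 1) * n + (r - n) := by ring
        have h2 := ih (r - n).toNat (by omega) (r - n) (by omega) (by omega) (c + 1)
        rw [e1, h2, zpow_add_one, mul_smul, h1 (r - n) (by omega) (by omega), sub_add_cancel]
  have hC : ∀ i : ℤ, ∃ c r : ℤ, 0 ≤ r ∧ r < n ∧ i = c * n + r := fun i =>
    ⟨i / n, i % n, Int.emod_nonneg _ hn0, Int.emod_lt_of_pos _ hn, by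
      have := Int.mul_ediv_add_emod i n
      rw [mul_comm] at this
      exact this.symm⟩
  have hB' : ∀ r : ℤ, 0 ≤ r → r ≤ n + 1 → ∀ c : ℤ, L (c * n + r) = g ^ c • f r := fun r h0 h2 c =>
    hB r.toNat r (by omega) h2 c
  -- the values in the segment
  have hA : ∀ (k : ℕ) (r : ℤ), 0 ≤ r → (k : ℤ) * n + r ≤ m → f ((k : ℤ) * n + r) = g ^ (k : ℤ) • f r := by
    intro k
    induction k with
    | zero =>
      intro r _ _
      simp
    | succ k ih =>
      intro r h0 h2
      push_cast at h2 ⊢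
      have h3 : ((k : ℤ) + 1) * n + r = ((k : ℤ) * n + r) + n := by ring
      have h4 : 0 ≤ (k : ℤ) * n := by positivity
      rw [h3] at h2 ⊢
      rw [← h1 _ (by omega) (by omega), ih r h0 (by omega), ← mul_smul, ← zpow_one_add, add_comm]
  have hA' : ∀ (k : ℕ) (r : ℤ), 0 ≤ r → r < n → -m ≤ -(k : ℤ) * n + r → f (-(k : ℤ) * n + r) = g ^ (-(k : ℤ)) • f r := by
    intro k
    induction k with
    | zero =>
      intro r _ _ _
      simp
    | succ k ih =>
      intro r h0 hrn h2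
      push_cast at h2 ⊢
      have h3 : -(k : ℤ) * n + r = (-((k : ℤ) + 1) * n + r) + n := by ring
      have h4 : 0 ≤ (k : ℤ) * n := by positivity
      have h5 : -((k : ℤ) + 1) * n + r = -((k : ℤ) * n) - n + r := by ring
      have h6 := h1 (-((k : ℤ) + 1) * n + r) h2 (by omega)
      rw [← h3, ih r h0 hrn (by omega)] at h6
      rw [← inv_smul_eq_iff.2 h6.symm, ← mul_smul]
      congr 1
      rw [← zpow_neg_one, ← zpow_add]
      congr 1
      ring
  have hval : ∀ i, |i| ≤ m → L i = f i := by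
    intro i hi
    obtain ⟨c, r, hr0, hrn, rfl⟩ := hC i
    rw [hB' r hr0 (by omega)]
    have h2 := abs_le.1 hi
    rcases le_total 0 c with hc | hc
    · have h3 := hA c.toNat r hr0 (by rw [Int.toNat_of_nonneg hc]; exact h2.2)
      rw [Int.toNat_of_nonneg hc] at h3
      exact h3.symm
    · have h4 : ((-c).toNat : ℤ) = -c := Int.toNat_of_nonneg (by omega)
      have h3 := hA' (-c).toNat r hr0 hrn (by rw [h4, neg_neg]; exact h2.1)
      rw [h4, neg_neg] at h3
      exact h3.symm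
  have hadj : ∀ i : ℤ, X.Adj (L i) (L (i + 1)) := by
    intro i
    obtain ⟨c, r, hr0, hrn, rfl⟩ := hC i
    rw [add_assoc, hB' r hr0 (by omega), hB' (r + 1) (by omega) (by omega)]
    refine hX.adj _ _ _ ?_
    rw [← SimpleGraph.dist_eq_one_iff_adj]
    have h2 := hf r (r + 1) (by rw [abs_of_nonneg hr0]; omega) (by rw [abs_of_nonneg (by omega)]; omega)
    have h3 : |r - (r + 1)| = 1 := by
      rw [show r - (r + 1) = -1 by ring]
      norm_num
    rw [h3] at h2
    exact_mod_cast h2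
  have hne : ∀ i : ℤ, L i ≠ L (i + 2) := by
    intro i
    obtain ⟨c, r, hr0, hrn, rfl⟩ := hC i
    rw [add_assoc, hB' r hr0 (by omega), hB' (r + 2) (by omega) (by omega)]
    intro h2
    have h3 : f r = f (r + 2) := MulAction.injective _ h2
    have h4 := hf r (r + 2) (by rw [abs_of_nonneg hr0]; omega) (by rw [abs_of_nonneg (by omega)]; omega)
    rw [h3, SimpleGraph.dist_self, show r - (r + 2) = -2 by ring] at h4
    norm_num at h4
  have hD : ∀ (i : ℤ) (k : ℕ), X.dist (L i) (L (i + k)) = k := by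
    intro i k
    have h2 := (Pool.Agent.H76.VC.line_dist hX.tree (fun k : ℕ => L (i + k)) (fun k => by
      have := hadj (i + k)
      rw [add_assoc] at this
      push_cast
      exact this) (fun k => by
      have := hne (i + k)
      rw [add_assoc] at this
      push_cast
      exact this) k).1
    simp only [Nat.cast_zero, add_zero] at h2
    exact h2
  refine ⟨L, ?_, ?_, hval⟩
  · have key : ∀ i j : ℤ, i ≤ j → (X.dist (L i) (L j) : ℤ) = |i - j| := by
      intro i j hij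
      have h2 := hD i (j - i).toNat
      have h3 : ((j - i).toNat : ℤ) = j - i := Int.toNat_of_nonneg (by omega)
      rw [h3, add_sub_cancel] at h2
      rw [h2, h3, abs_sub_comm, abs_of_nonneg (by omega)]
    intro i j
    rcases le_total i j with h | h
    · exact key i j h
    · rw [SimpleGraph.dist_comm, abs_sub_comm]
      exact key j i h
  · intro i
    obtain ⟨c, r, hr0, hrn, rfl⟩ := hC i
    rw [show c * n + r + n = (c + 1) * n + r by ring, hB' r hr0 (by omega), hB' r hr0 (by omega), ← mul_smul, ← zpow_one_add,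
      add_comm]

theorem exists_line' (hX : OnTree Q X) {m a : ℕ} {f : ℤ → V} (hf : Geo1 X (m + a) f) {h : Q} {v : ℤ} (hv : v ≠ 0)
    (ha : |v| ≤ a) (hm : a + 2 ≤ m) (h1 : Trn1 m f h v) :
    ∃ L : ℤ → V, Line X L ∧ (∀ i, h • L i = L (i + v)) ∧ ∀ i : ℤ, |i| ≤ m → L i = f i := by
  have hf' : ∀ i j : ℤ, |i| ≤ ((m + a : ℕ) : ℤ) → |j| ≤ ((m + a : ℕ) : ℤ) → (X.dist (f i) (f j) : ℤ) = |i - j| := hf
  have hv1 := abs_le.1 ha
  have hmM : (m : ℤ) ≤ ((m + a : ℕ) : ℤ) := by push_cast; omega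
  rcases lt_or_gt_of_ne hv with h2 | h2
  · obtain ⟨L, hL, hL2, hL3⟩ := pos_line' hX hmM hf' (g := h⁻¹) (n := -v) (by omega) (by omega) (by
      intro i h0 h3
      have h4 := h1 (i - v) (by rw [abs_le]; omega)
      rw [sub_add_cancel] at h4
      rw [← h4, inv_smul_smul, sub_eq_add_neg])
    refine ⟨L, hL, fun i => ?_, hL3⟩
    have h3 := hL2 (i + v)
    rw [add_neg_cancel_right] at h3
    rw [← h3, smul_inv_smul]
  · exact pos_line' hX hmM hf' h2 (by omega) (fun i h0 h3 => h1 i (by rw [abs_le]; omega))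

private theorem cm_zpow {L : ℤ → V} {h : Q} {v : ℤ} (h1 : ∀ i, h • L i = L (i + v)) (n : ℤ) :
    ∀ i, h ^ n • L i = L (i + n * v) := by
  have h2 : ∀ i, h⁻¹ • L i = L (i - v) := by
    intro i
    rw [inv_smul_eq_iff, h1, sub_add_cancel]
  induction n using Int.induction_on with
  | zero =>
    intro i
    rw [zpow_zero, one_smul, zero_mul, add_zero]
  | succ n ih =>
    intro i
    rw [zpow_add_one, mul_smul, h1, ih]
    congr 1
    ring
  | pred n ih =>
    intro i
    rw [zpow_sub_one, mul_smul, h2, ih]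
    congr 1
    ring

private theorem cm_on (hX : OnTree Q X) {L : ℤ → V} (hL : Line X L) {h : Q} {v : ℤ} (hv : v ≠ 0)
    (h1 : ∀ i, h • L i = L (i + v)) {g : Q} (hg : g ∈ Pool.Agent.H76.VC.Com h) (i : ℤ) : ∃ j, L i = g • L j := by
  obtain ⟨m, n, hm, hn, hmn⟩ := hg
  have hL' : Line X (fun i => g • L i) := by
    intro i j
    rw [Pool.Agent.H76.VC.dist_sm' hX]
    exact hL i j
  refine cross hX.tree hL hL' (s := m * v) (s' := n * v) (mul_ne_zero hm hv) (mul_ne_zero hn hv)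
    (D := X.dist (g • L 0) (L 0)) (fun l => ?_) i
  have e1 : g • L (l * (m * v)) = h ^ (l * n) • (g • L 0) := by
    have e2 : h ^ (l * n) = g * h ^ (l * m) * g⁻¹ := by
      rw [mul_comm l n, zpow_mul, ← hmn, conj_zpow, ← zpow_mul, mul_comm m l]
    rw [e2, mul_smul, mul_smul, inv_smul_smul, cm_zpow h1 (l * m) 0, zero_add, mul_assoc]
  have e3 : L (l * (n * v)) = h ^ (l * n) • L 0 := by
    rw [cm_zpow h1 (l * n) 0, zero_add, mul_assoc]
  show X.dist (g • L (l * (m * v))) (L (l * (n * v))) ≤ X.dist (g • L 0) (L 0)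
  rw [e1, e3, Pool.Agent.H76.VC.dist_sm' hX]

theorem com_vc' (hX : OnTree Q X) {k : ℕ} {L : ℤ → V} (hL : Line X L) {h : Q} {v : ℤ} (hv : v ≠ 0)
    (h1 : ∀ i, h • L i = L (i + v)) (hF : {q : Q | q • L 0 = L 0 ∧ q • L (k : ℤ) = L (k : ℤ)}.Finite) (hk : 0 < k) :
    VirtuallyCyclic (Com h) := by
  have hF0 := hF
  have hh : h ∈ Pool.Agent.H76.VC.Com h := ⟨1, 1, one_ne_zero, one_ne_zero, by simp⟩
  have hz := cm_zpow h1
  clear hF
  obtain ⟨F, hF⟩ : ∃ F : Set Q, F = {q : Q | q • L 0 = L 0 ∧ q • L (k : ℤ) = L (k : ℤ)} := ⟨_, rfl⟩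
  have hFf : F.Finite := by
    rw [hF]
    exact hF0
  have hTf : ∀ b c : ℤ, {t : Q | t • L 0 = L b ∧ t • L (k : ℤ) = L c}.Finite := by
    intro b c
    rcases Set.eq_empty_or_nonempty {t : Q | t • L 0 = L b ∧ t • L (k : ℤ) = L c} with h2 | ⟨t0, ht0⟩
    · rw [h2]
      exact Set.finite_empty
    · refine (hFf.image fun q => t0 * q).subset fun t ht => ⟨t0⁻¹ * t, ?_, mul_inv_cancel_left _ _⟩
      rw [hF]
      refine ⟨?_, ?_⟩
      · rw [mul_smul, ht.1, inv_smul_eq_iff, ht0.1]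
      · rw [mul_smul, ht.2, inv_smul_eq_iff, ht0.2]
  obtain ⟨T, hT⟩ : ∃ T : Set Q, T = ⋃ b ∈ Finset.Icc (0 : ℤ) |v|, ({t : Q | t • L 0 = L b ∧ t • L (k : ℤ) = L (b + k)} ∪
      {t : Q | t • L 0 = L b ∧ t • L (k : ℤ) = L (b - k)}) := ⟨_, rfl⟩
  have hTF : T.Finite := by
    rw [hT]
    exact Set.Finite.biUnion (Finset.finite_toSet _) fun b _ => (hTf _ _).union (hTf _ _)
  have hcov : ∀ g ∈ Pool.Agent.H76.VC.Com h, ∃ q : ℤ, h ^ q * g ∈ T := by
    intro g hg
    have hgi : g⁻¹ ∈ Pool.Agent.H76.VC.Com h := Subgroup.inv_mem _ hg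
    have hmv : ∀ i, ∃ j, g • L i = L j := by
      intro i
      obtain ⟨j, hj⟩ := cm_on hX hL hv h1 hgi i
      exact ⟨j, by rw [hj, smul_inv_smul]⟩
    obtain ⟨c, hc⟩ := hmv 0
    obtain ⟨d, hd⟩ := hmv (k : ℤ)
    have hcd : |c - d| = k := by
      have h2 := hL c d
      rw [← hc, ← hd, Pool.Agent.H76.VC.dist_sm' hX, hL 0 (k : ℤ), zero_sub, abs_neg, Nat.abs_cast] at h2
      exact h2.symm
    have hce : c + -(c / v) * v = c % v := by
      have h3 := Int.emod_add_mul_ediv c v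
      linear_combination -h3
    refine ⟨-(c / v), ?_⟩
    rw [hT]
    refine Set.mem_biUnion (x := c % v) ?_ ?_
    · rw [Finset.mem_coe, Finset.mem_Icc]
      exact ⟨Int.emod_nonneg c hv, (Int.emod_lt_abs c hv).le⟩
    · have h4 : (h ^ (-(c / v)) * g) • L 0 = L (c % v) := by
        rw [mul_smul, hc, hz, hce]
      have h5 : (h ^ (-(c / v)) * g) • L (k : ℤ) = L (c % v + (d - c)) := by
        rw [mul_smul, hd, hz, ← hce]
        congr 1
        ring
      rcases abs_choice (c - d) with h6 | h6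
      · right
        refine ⟨h4, ?_⟩
        rw [h5]
        congr 1
        rw [h6] at hcd
        linear_combination -hcd
      · left
        refine ⟨h4, ?_⟩
        rw [h5]
        congr 1
        rw [h6] at hcd
        linear_combination hcd
  refine ⟨⟨h, hh⟩, ?_⟩
  rw [Subgroup.finiteIndex_iff_finite_quotient]
  have hTF' : {x : Pool.Agent.H76.VC.Com h | (x : Q)⁻¹ ∈ T}.Finite := by
    refine Set.Finite.preimage (f := fun x : Pool.Agent.H76.VC.Com h => (x : Q)⁻¹) ?_ hTF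
    exact (inv_injective.comp Subtype.val_injective).injOn
  have hsurj : (QuotientGroup.mk : Pool.Agent.H76.VC.Com h → Pool.Agent.H76.VC.Com h ⧸ Subgroup.zpowers (⟨h, hh⟩ : Pool.Agent.H76.VC.Com h)) ''
      {x : Pool.Agent.H76.VC.Com h | (x : Q)⁻¹ ∈ T} = Set.univ := by
    rw [Set.eq_univ_iff_forall]
    intro y
    obtain ⟨g, rfl⟩ := QuotientGroup.mk_surjective y
    obtain ⟨q, hq⟩ := hcov _ (Subgroup.inv_mem _ g.2)
    refine ⟨g * (⟨h, hh⟩ : Pool.Agent.H76.VC.Com h) ^ (-q), ?_, ?_⟩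
    · show ((g * (⟨h, hh⟩ : Pool.Agent.H76.VC.Com h) ^ (-q) : Pool.Agent.H76.VC.Com h) : Q)⁻¹ ∈ T
      have h7 : ((g * (⟨h, hh⟩ : Pool.Agent.H76.VC.Com h) ^ (-q) : Pool.Agent.H76.VC.Com h) : Q)⁻¹ = h ^ q * (g : Q)⁻¹ := by
        rw [Subgroup.coe_mul, Subgroup.coe_zpow, mul_inv_rev, ← zpow_neg, neg_neg]
      rw [h7]
      exact hq
    · rw [QuotientGroup.eq]
      refine ⟨q, ?_⟩
      rw [mul_inv_rev, ← zpow_neg, neg_neg, inv_mul_cancel_right]
  exact Set.finite_univ_iff.1 (hsurj ▸ hTF'.image _)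

/-- the commensurator of a translation of a segment whose middle part has a finite stabiliser -/
theorem com_vc_at (hX : OnTree Q X) {m a b : ℕ} {f : ℤ → V} (hf : Geo1 X (m + a) f) {h : Q} {v : ℤ} (hv : v ≠ 0)
    (ha : |v| ≤ a) (hm : a + 2 ≤ m) (hb : b ≤ m) (hb0 : 0 < b) (h1 : Trn1 m f h v)
    (hF : {q : Q | q • f (-(b : ℤ)) = f (-(b : ℤ)) ∧ q • f (b : ℤ) = f (b : ℤ)}.Finite) :
    ¬ IsOfFinOrder h ∧ VirtuallyCyclic (Com h) := by
  obtain ⟨L, hL, hL2, hL3⟩ := exists_line' hX hf hv ha hm h1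
  refine ⟨?_, ?_⟩
  · intro hfin
    obtain ⟨n, hn, hn1⟩ := isOfFinOrder_iff_pow_eq_one.1 hfin
    have h2 := cm_zpow hL2 (n : ℤ) 0
    rw [zpow_natCast, hn1, one_smul, zero_add] at h2
    have h3 := hL 0 ((n : ℤ) * v)
    rw [← h2, SimpleGraph.dist_self, zero_sub, abs_neg] at h3
    have h4 : (n : ℤ) * v = 0 := abs_eq_zero.1 (by rw [← h3]; rfl)
    rcases mul_eq_zero.1 h4 with h5 | h5
    · omega
    · exact hv h5
  · refine com_vc' hX (k := 2 * b) (L := fun i => L (i - b)) ?_ hv ?_ ?_ (by omega)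
    · intro i j
      show (X.dist (L (i - b)) (L (j - b)) : ℤ) = |i - j|
      rw [hL]
      congr 1
      ring
    · intro i
      show h • L (i - b) = L (i + v - b)
      rw [hL2]
      congr 1
      ring
    · have e1 : L (0 - (b : ℤ)) = f (-(b : ℤ)) := by
        rw [zero_sub]
        exact hL3 _ (by rw [abs_neg, Nat.abs_cast]; exact_mod_cast hb)
      have e2 : L (((2 * b : ℕ) : ℤ) - (b : ℤ)) = f (b : ℤ) := by
        have : ((2 * b : ℕ) : ℤ) - (b : ℤ) = (b : ℤ) := by push_cast; ring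
        rw [this]
        exact hL3 _ (by rw [Nat.abs_cast]; exact_mod_cast hb)
      show {q : Q | q • L (0 - (b : ℤ)) = L (0 - (b : ℤ)) ∧ q • L (((2 * b : ℕ) : ℤ) - (b : ℤ)) = L (((2 * b : ℕ) : ℤ) - (b : ℤ))}.Finite
      rw [e1, e2]
      exact hF

end Pool.Agent.H75.CX
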