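import Pool.Agent.H76.GT.DefsT
import Pool.Agent.H93.TR.Defs
import Mathlib.GroupTheory.Commensurable

/-!
# [H75 CX Defs] groups acting on trees and commensurators: definitions

`Ps G x y`: the stabiliser of the path between `x` and `y`. `Ch p D`: in descending chains of subgroups with the property `p`
at most `D` indices are infinite. `VP`: virtually polycyclic groups. `BalS`: balanced subgroups.
-/

set_option autoImplicit false

namespace Pool.Agent.H75.CX

open Pool.Agent.H98.FJ

/-- the stabiliser of the path between `x` and `y` -/
def Ps (G : Type) [Group G] {V : Type} [MulAction G V] (x y : V) : Subgroup G :=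
  MulAction.stabilizer G x ⊓ MulAction.stabilizer G y

/-- in descending chains of subgroups with the property `p` at most `D` indices are infinite -/
def Ch {G : Type} [Group G] (p : Subgroup G → Prop) (D : ℕ) : Prop :=
  ∀ P : ℕ → Subgroup G, (∀ i, p (P i)) → (∀ i, P (i + 1) ≤ P i) → ∀ k : ℕ,
    {i | i < k ∧ (P (i + 1)).relIndex (P i) = 0}.ncard ≤ D

/-- virtually polycyclic groups of length at most `n` -/
def VPn : ℕ → (G : Type) → [Group G] → Prop
  | 0, G, _ => Subsingleton G
  | n + 1, G, _ => ∃ (N : Subgroup G) (_ : N.Normal), VPn n N ∧ VirtuallyCyclic (G ⧸ N)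

/-- virtually polycyclic groups: there is a finite subnormal series with virtually cyclic quotients -/
def VP (G : Type) [Group G] : Prop := ∃ n, VPn n G

/-- `P` is balanced: every finitely generated subgroup of its commensurator normalises a subgroup of finite index of `P` -/
def BalS {G : Type} [Group G] (P : Subgroup G) : Prop :=
  ∀ H : Subgroup G, H.FG → H ≤ Subgroup.Commensurable.commensurator P →
    ∃ P' : Subgroup G, P' ≤ P ∧ P'.relIndex P ≠ 0 ∧ H ≤ Subgroup.normalizer (P' : Set G)

end Pool.Agent.H75.CX
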