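import Pool.Agent.H54.AX.Cr
import Pool.Agent.H76.VC.Path
import Pool.Agent.H75.CX.Defs

/-!
# [H75 CX Mn] stabilisers of paths

`ps_sub`: `g` fixes `x` and `y`, so it fixes every vertex `u` with `dist x u + dist u y = dist x y`: `u` is on the path (`Pool.Agent.H54.AX.mem_of_between` for the walk of
`Pool.Agent.H76.VC.fixed_walk`). `ps_mono`: `f b`, `f c` are between `f a` and `f d` (`Geo1`, `a ≤ b ≤ c ≤ d`).
`ps_edge`: if `x ≠ y` the first two vertices `v`, `w` of the path from `x` to `y` are adjacent and fixed by `Ps G x y` (`Pool.Agent.H76.VC.exists_path`).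
-/

set_option autoImplicit false

namespace Pool.Agent.H75.CX

open Pool.Agent.H98.FJ Pool.Agent.H93.TR Pool.Agent.H54.AX

variable {G V : Type} [Group G] [MulAction G V] {X : SimpleGraph V}

theorem mem_ps {x y : V} {g : G} : g ∈ Ps G x y ↔ g • x = x ∧ g • y = y := Iff.rfl

theorem ps_comm (x y : V) : Ps G x y = Ps G y x := inf_comm _ _

theorem ps_sub (hX : OnTree G X) {x y u : V} (h : X.dist x u + X.dist u y = X.dist x y) {g : G} (hg : g ∈ Ps G x y) :
    g • u = u := by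
  obtain ⟨q, hq⟩ := Pool.Agent.H76.VC.fixed_walk (G := G) hX x y
  exact hq g hg.1 hg.2 u (mem_of_between hX.tree h q)

theorem ps_mono (hX : OnTree G X) {m : ℕ} {f : ℤ → V} (hf : Geo1 X m f) {a b c d : ℤ} (ha : -(m : ℤ) ≤ a) (hab : a ≤ b)
    (hbc : b ≤ c) (hcd : c ≤ d) (hd : d ≤ m) : Ps G (f a) (f d) ≤ Ps G (f b) (f c) := by
  have hab' : ∀ t : ℤ, -(m : ℤ) ≤ t → t ≤ m → |t| ≤ (m : ℤ) := fun t h1 h2 => abs_le.2 ⟨h1, h2⟩
  have hd1 : ∀ s t : ℤ, -(m : ℤ) ≤ s → s ≤ t → t ≤ m → (X.dist (f s) (f t) : ℤ) = t - s := by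
    intro s t hs hst ht
    rw [hf s t (hab' s hs (by omega)) (hab' t (by omega) ht), abs_sub_comm, abs_of_nonneg (by omega)]
  have key : ∀ t : ℤ, a ≤ t → t ≤ d → ∀ g ∈ Ps G (f a) (f d), g • f t = f t := by
    intro t hat htd g hg
    refine ps_sub hX ?_ hg
    have h1 := hd1 a t ha hat (by omega)
    have h2 := hd1 t d (by omega) htd hd
    have h3 := hd1 a d ha (by omega) hd
    omega
  intro g hg
  exact ⟨key b hab (by omega) g hg, key c (by omega) hcd g hg⟩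

theorem geo_ne {m : ℕ} {f : ℤ → V} (hf : Geo1 X m f) {a d : ℤ} (ha : -(m : ℤ) ≤ a) (had : a < d) (hd : d ≤ m) :
    f a ≠ f d := by
  intro h
  have h1 := hf a d (abs_le.2 ⟨ha, by omega⟩) (abs_le.2 ⟨by omega, hd⟩)
  rw [h, SimpleGraph.dist_self] at h1
  have h2 : a - d = 0 := abs_eq_zero.1 (by exact_mod_cast h1.symm)
  omega

theorem ps_edge (hX : OnTree G X) {x y : V} (h : x ≠ y) : ∃ v w, X.Adj v w ∧ Ps G x y ≤ Ps G v w := by
  obtain ⟨p, h0, -, hadj, -, hfix⟩ := Pool.Agent.H76.VC.exists_path (G := G) hX x y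
  have hpos : 0 < X.dist x y := hX.tree.connected.pos_dist_of_ne h
  exact ⟨p 0, p 1, hadj 0 hpos, fun g hg => ⟨hfix g hg.1 hg.2 0, hfix g hg.1 hg.2 1⟩⟩

end Pool.Agent.H75.CX
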