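import Pool.Agent.H75.CX.Cc

/-!
# [H75 CX Cml] commensurators: images, preimages, products

`rel_comap`: `Subgroup.relIndex_comap` for a surjective `p` (`(A.comap p).relIndex (B.comap p) = A.relIndex B`). `com_comap`: `g` is in the commensurator of `A.comap p` if and only if `p g` is in the commensurator of `A`:
`g • (A.comap p) = (p g • A).comap p` (`ConjAct`, kernel normal). `com_map_ps`: for a surjective `p : H → Q`, `ker p ≤ R`: `(commensurator (R.map p)).comap p = commensurator R` (`R = (R.map p).comap p`).
`com_sub`: `K ≤ G`, `R ≤ K`: an element of `K` is in the commensurator of `R` (in `K`) if and only if it is in the commensurator of `R` in `G` (`Subgroup.map K.subtype R`).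
`com_sup`: `g` and `R` normalise `P`, `g` commensurates `R`: then `g` commensurates `R ⊔ P`: `R ⊔ P = R P`; `R' = R ∩ g R g⁻¹` has finite index in `R`, so `R' P` has finite index in `R P`, and `R' P ≤ g (R P) g⁻¹ = (g R g⁻¹) P`; symmetric.
`rel_sup`: `R` normalises `P`: `P.relIndex (R ⊔ P) = P.relIndex R` (`Subgroup.relIndex_sup_right` or similar; the version needed: if `(P ⊓ R).relIndex R = 0` then `P.relIndex (R ⊔ P) = 0`).
-/

set_option autoImplicit false

namespace Pool.Agent.H75.CX

open Pool.Agent.H98.FJ Pool.Agent.H76.VC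

open scoped Pointwise

private theorem mem_cj {Q : Type} [Group Q] (q z : Q) (P : Subgroup Q) :
    z ∈ ConjAct.toConjAct q • P ↔ q⁻¹ * z * q ∈ P := by
  rw [Subgroup.mem_pointwise_smul_iff_inv_smul_mem]
  have h : (ConjAct.toConjAct q)⁻¹ • z = q⁻¹ * z * q := by
    rw [← map_inv, ConjAct.toConjAct_smul, inv_inv]
  rw [h]

private theorem cj_comap {H Q : Type} [Group H] [Group Q] (p : H →* Q) (A : Subgroup Q) (g : H) :
    ConjAct.toConjAct g • A.comap p = (ConjAct.toConjAct (p g) • A).comap p := by
  ext z
  rw [mem_cj, Subgroup.mem_comap, Subgroup.mem_comap, mem_cj, map_mul, map_mul, map_inv]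

private theorem rel_cm {H Q : Type} [Group H] [Group Q] (p : H →* Q) (hp : Function.Surjective p)
    (A B : Subgroup Q) : (A.comap p).relIndex (B.comap p) = A.relIndex B := by
  rw [Subgroup.relIndex_comap, Subgroup.map_comap_eq_self_of_surjective hp]

theorem com_comap {H Q : Type} [Group H] [Group Q] (p : H →* Q) (hp : Function.Surjective p) (A : Subgroup Q) :
    (Subgroup.Commensurable.commensurator A).comap p = Subgroup.Commensurable.commensurator (A.comap p) := by
  ext g
  rw [Subgroup.mem_comap, Subgroup.Commensurable.commensurator_mem_iff,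
    Subgroup.Commensurable.commensurator_mem_iff, cj_comap]
  unfold Subgroup.Commensurable
  rw [rel_cm p hp, rel_cm p hp]

/-- the commensurator in a subgroup -/
theorem com_sub {G : Type} [Group G] {K : Subgroup G} (R : Subgroup K) (g : K) :
    g ∈ Subgroup.Commensurable.commensurator R ↔
      (g : G) ∈ Subgroup.Commensurable.commensurator (R.map K.subtype) := by
  have h : ConjAct.toConjAct (g : G) • R.map K.subtype = (ConjAct.toConjAct g • R).map K.subtype := by
    ext z
    rw [mem_cj, Subgroup.mem_map, Subgroup.mem_map]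
    constructor
    · rintro ⟨x, hx, hxz⟩
      refine ⟨g * x * g⁻¹, ?_, ?_⟩
      · rw [mem_cj]
        have h1 : g⁻¹ * (g * x * g⁻¹) * g = x := by group
        rw [h1]
        exact hx
      · have h2 : (x : G) = (g : G)⁻¹ * z * g := hxz
        show (g : G) * (x : G) * (g : G)⁻¹ = z
        rw [h2]
        group
    · rintro ⟨x, hx, hxz⟩
      rw [mem_cj] at hx
      refine ⟨g⁻¹ * x * g, hx, ?_⟩
      have h2 : (x : G) = z := hxz
      show (g : G)⁻¹ * (x : G) * (g : G) = (g : G)⁻¹ * z * g
      rw [h2]
  rw [Subgroup.Commensurable.commensurator_mem_iff, Subgroup.Commensurable.commensurator_mem_iff, h]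
  unfold Subgroup.Commensurable
  rw [Subgroup.relIndex_map_map_of_injective _ _ K.subtype_injective,
    Subgroup.relIndex_map_map_of_injective _ _ K.subtype_injective]

private theorem rel_map {G G' : Type} [Group G] [Group G'] (f : G →* G') {A B : Subgroup G}
    (h : A.relIndex B ≠ 0) : (A.map f).relIndex (B.map f) ≠ 0 := by
  rw [← Subgroup.relIndex_comap]
  intro h0
  have h1 := Subgroup.relIndex_dvd_of_le_left B (Subgroup.le_comap_map f A)
  rw [h0, zero_dvd_iff] at h1
  exact h h1

/-- `A` of finite index in `B`, both in the normaliser of `P` -/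
private theorem rel_norm {G : Type} [Group G] {A B P : Subgroup G}
    (hA : A ≤ Subgroup.normalizer (P : Set G)) (hB : B ≤ Subgroup.normalizer (P : Set G))
    (h : A.relIndex B ≠ 0) : (A ⊔ P).relIndex (B ⊔ P) ≠ 0 := by
  set N := Subgroup.normalizer (P : Set G) with hN
  have hP : P ≤ N := Subgroup.le_normalizer
  have : (P.subgroupOf N).Normal := Subgroup.normal_in_normalizer
  have h1 : (A.subgroupOf N).relIndex (B.subgroupOf N) ≠ 0 := by
    rw [Subgroup.relIndex_subgroupOf hB]
    exact h
  have h2 := rel_map (QuotientGroup.mk' (P.subgroupOf N)) h1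
  rw [Subgroup.relIndex_map_map, QuotientGroup.ker_mk', ← Subgroup.subgroupOf_sup hA hP,
    ← Subgroup.subgroupOf_sup hB hP, Subgroup.relIndex_subgroupOf (sup_le hB hP)] at h2
  exact h2

private theorem cm_norm {G : Type} [Group G] {A B P : Subgroup G}
    (hA : A ≤ Subgroup.normalizer (P : Set G)) (hB : B ≤ Subgroup.normalizer (P : Set G))
    (h : Subgroup.Commensurable A B) : Subgroup.Commensurable (A ⊔ P) (B ⊔ P) :=
  ⟨rel_norm hA hB h.1, rel_norm hB hA h.2⟩

theorem com_sup {G : Type} [Group G] {R P : Subgroup G} {g : G} (hR : R ≤ Subgroup.normalizer (P : Set G))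
    (hg : g ∈ Subgroup.normalizer (P : Set G)) (hc : g ∈ Subgroup.Commensurable.commensurator R) :
    g ∈ Subgroup.Commensurable.commensurator (R ⊔ P) := by
  rw [Subgroup.Commensurable.commensurator_mem_iff] at hc ⊢
  have h1 : ConjAct.toConjAct g • P = P := by
    ext z
    rw [mem_cj]
    have h2 := (Subgroup.mem_normalizer_iff.1 (inv_mem hg)) z
    rw [inv_inv] at h2
    exact h2.symm
  rw [Subgroup.smul_sup, h1]
  refine cm_norm ?_ hR hc
  intro x hx
  rw [mem_cj] at hx
  have h3 := hR hx
  have h4 := mul_mem (mul_mem hg h3) (inv_mem hg)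
  have h5 : g * (g⁻¹ * x * g) * g⁻¹ = x := by group
  rwa [h5] at h4

theorem rel_sup {G : Type} [Group G] {R P : Subgroup G} (hR : R ≤ Subgroup.normalizer (P : Set G))
    (h : (P ⊓ R).relIndex R = 0) : P.relIndex (R ⊔ P) = 0 := by
  rw [Subgroup.inf_relIndex_right] at h
  exact Subgroup.relIndex_eq_zero_of_le_right le_sup_left h

end Pool.Agent.H75.CX
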