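import Pool.Agent.H75.CX.Ext
import Pool.Agent.H75.CX.Vp2
import Pool.Agent.H75.CX.Vp3
import Pool.Agent.H75.CX.Vp4
import Pool.Agent.H75.CX.Cml
import Pool.Agent.H75.CX.Mn
import Pool.Agent.H76.VC.Sub

/-!
# [H75 CX St0] the step for one group which acts on a tree

`Kf H V`: the kernel of the action. `step0`: let `W`, `Y` be the subtree of `Pool.Agent.H76.VC.exists_subtree` for `H`. If `W` has only one element `H` fixes it, so `C H` by `hv`. Otherwise `Y` has an edge `(a, b)`. Let `p : H → Q` be the
action on `W`, `Q` its range in `Equiv.Perm W` (`MulAction.toPermHom`, `rangeRestrict`), `Q` acts on `W`, `p` is surjective, `ker p` is the set of the elements which fix all of `W`; `OnTree Q Y`. For `x`, `y ∈ W`: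
`Ps Q x y = (Ps H x y).map p` and `(Ps Q x y).comap p = Ps H x y` (as subgroups of `H`; `Ps H x y = Ps H (x : V) (y : V)`). Apply `com_ext` to `p`, `Y`:
(1) stabilisers: `(stabilizer Q w).comap p = stabilizer H (w : V)`. (2) `U` virtually cyclic: `U.comap p → U` is surjective with kernel `ker p` (contained in `Ps H a b`, so `VP`, `vp_le`, `vp_inj`): `vp_ext`, `vp_mem`.
(3) `hD`: for some `n` `VPn n (Ps H a b)` for all edges `(a, b)` of `Y`: the third part of `exists_subtree` with `B n a b = VPn n (Ps H a b)` (`vpn_mono`; invariance: conjugation, `vpn_inj`), so `VPn n (Ps Q a b)` (`vpn_surj`). All members of a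
descending chain of path stabilisers are contained in the first one and so in one edge stabiliser (`ps_edge`): `ch_sub` (`Ch` for a smaller property: restrict), `D = n`.
(4) `hN`: for some `M` all finite subgroups of `Ps Q a b`, `(a, b)` an edge of `Y`, have at most `M` elements: the third part of `exists_subtree` with `B m a b` = for all `F : Subgroup Q`, if there are `a', b' ∈ W` with values `a`, `b` and `F ≤ Ps Q a' b'`, and `F` is
finite, then `(F : Set Q).ncard ≤ m`; existence for an edge of `X`: `fin_bd'` (`Ps Q a' b'` is `VP` by `vp_surj`; if `a` or `b` is not in `W` nothing to prove), invariance: conjugate by `p g`. Then `ps_edge`.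
(5) `hCm`: `(commensurator (Ps Q x y)).comap p = commensurator (Ps H x y)` by `com_comap`; if `Ps Q x y` is infinite then `(ker p).relIndex (Ps H x y) = 0` (`Subgroup.relIndex_ker` or a bijection with the cosets), so
`(Kf H V).relIndex (Ps H x y) = 0` (`Kf H V ≤ ker p`, `Subgroup.relIndex_eq_zero_of_le_left`): `hcm`.
-/

set_option autoImplicit false

namespace Pool.Agent.H75.CX

open Pool.Agent.H98.FJ Pool.Agent.H93.TR Pool.Agent.H76.VC Pool.Agent.H76.GT

/-- the kernel of the action -/
def Kf (H V : Type) [Group H] [MulAction H V] : Subgroup H := ⨅ v : V, MulAction.stabilizer H v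

theorem mem_kf {H V : Type} [Group H] [MulAction H V] {h : H} : h ∈ Kf H V ↔ ∀ v : V, h • v = v := by
  unfold Kf
  rw [Subgroup.mem_iInf]
  rfl

/-- conjugation maps the stabiliser of the translated path to the stabiliser of the path -/
private def cjPs {H V : Type} [Group H] [MulAction H V] (g : H) (a b : V) : Ps H (g • a) (g • b) →* Ps H a b where
  toFun x := ⟨g⁻¹ * x.1 * g, by
    have h1 : x.1 • g • a = g • a := x.2.1
    have h2 : x.1 • g • b = g • b := x.2.2
    refine ⟨?_, ?_⟩
    · show (g⁻¹ * x.1 * g) • a = a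
      rw [mul_smul, mul_smul, h1, inv_smul_smul]
    · show (g⁻¹ * x.1 * g) • b = b
      rw [mul_smul, mul_smul, h2, inv_smul_smul]⟩
  map_one' := Subtype.ext (by
    show g⁻¹ * 1 * g = 1
    group)
  map_mul' x y := Subtype.ext (by
    show g⁻¹ * (x.1 * y.1) * g = g⁻¹ * x.1 * g * (g⁻¹ * y.1 * g)
    group)

private theorem cjPs_inj {H V : Type} [Group H] [MulAction H V] (g : H) (a b : V) :
    Function.Injective (cjPs g a b) := by
  intro x y hxy
  have h1 : g⁻¹ * x.1 * g = g⁻¹ * y.1 * g := congrArg Subtype.val hxy
  exact Subtype.ext (mul_left_cancel (mul_right_cancel h1))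

theorem step0 {C : (G : Type) → [Group G] → Prop} (hC : Inherits C) (hT : Transfer C)
    (hS : ∀ (G : Type) [Group G], Group.IsSolvable G → C G) {H V : Type} [Group H] [MulAction H V] (hfg : Group.FG H)
    {X : SimpleGraph V} (hX : OnTree H X) (hv : ∀ v : V, C (MulAction.stabilizer H v))
    (hE : ∀ v w : V, X.Adj v w → VP (Ps H v w))
    (hcm : ∀ x y : V, x ≠ y → (Kf H V).relIndex (Ps H x y) = 0 →
      C (Subgroup.Commensurable.commensurator (Ps H x y))) : C H := by
  obtain ⟨W, Y, hY, hYX, hB⟩ := exists_subtree hX hfg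
  have hne : Nonempty W := hY.tree.connected.nonempty
  rcases subsingleton_or_nontrivial W with hsub | hnt
  · obtain ⟨w⟩ := hne
    have h1 : ∀ h : H, h • (w : V) = w := fun h => congrArg Subtype.val (Subsingleton.elim (h • w) w)
    exact hC.of_injective
      { toFun := fun h : H => (⟨h, h1 h⟩ : MulAction.stabilizer H (w : V))
        map_one' := rfl
        map_mul' := fun _ _ => rfl } (fun a b hab => congrArg Subtype.val hab) (hv w)
  · obtain ⟨ρ, hρ⟩ : ∃ ρ : H →* Equiv.Perm W, ρ = MulAction.toPermHom H W := ⟨_, rfl⟩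
    have hρ' : ∀ (h : H) (w : W), ρ h w = h • w := by
      intro h w
      rw [hρ]
      rfl
    let p : H →* ρ.range := ρ.rangeRestrict
    have hp : Function.Surjective p := ρ.rangeRestrict_surjective
    have hact : ∀ (h : H) (w : W), p h • w = h • w := hρ'
    have hQY : OnTree ρ.range Y := by
      refine ⟨hY.tree, fun q v w h => ?_⟩
      obtain ⟨g, rfl⟩ := hp q
      rw [hact, hact]
      exact hY.adj g v w h
    have hval : ∀ (h : H) (w : W), p h • w = w ↔ h • (w : V) = w := by
      intro h w
      rw [hact]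
      exact ⟨fun e => congrArg Subtype.val e, fun e => Subtype.ext e⟩
    have hPc : ∀ x y : W, (Ps ρ.range x y).comap p = Ps H (x : V) (y : V) := by
      intro x y
      ext h
      rw [Subgroup.mem_comap, mem_ps, mem_ps, hval, hval]
    have hneV : ∀ x y : W, x ≠ y → (x : V) ≠ y := fun x y h e => h (Subtype.ext e)
    -- the surjection of the path stabilisers
    have hPm : ∀ (x y : W), ∃ f : Ps H (x : V) (y : V) →* Ps ρ.range x y, Function.Surjective f := by
      intro x y
      refine ⟨{ toFun := fun h => ⟨p h.1, by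
                  have h1 : h.1 ∈ (Ps ρ.range x y).comap p := by
                    rw [hPc]
                    exact h.2
                  exact h1⟩
                map_one' := Subtype.ext (map_one p)
                map_mul' := fun a b => Subtype.ext (map_mul p a.1 b.1) }, ?_⟩
      rintro ⟨q, hq⟩
      obtain ⟨h, rfl⟩ := hp q
      have h1 : h ∈ (Ps ρ.range x y).comap p := hq
      rw [hPc] at h1
      exact ⟨⟨h, h1⟩, rfl⟩
    obtain ⟨x0, y0, hxy0⟩ := exists_pair_ne W
    obtain ⟨a0, b0, hab0, -⟩ := ps_edge hQY hxy0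
    -- chains
    obtain ⟨n, hn⟩ := hB (fun n a b => VPn n (Ps H a b)) (fun m n a b hmn h => vpn_mono hmn h)
      (fun n g a b h => vpn_inj (cjPs g a b) (cjPs_inj g a b) h) (fun a b hab => hE a b hab)
    have hnQ : ∀ a b : W, Y.Adj a b → VPn n (Ps ρ.range a b) := by
      intro a b hab
      obtain ⟨f, hf⟩ := hPm a b
      exact vpn_surj f hf (hn a b hab)
    have hD : Ch (fun P : Subgroup ρ.range => ∃ x y : W, x ≠ y ∧ P = Ps ρ.range x y) n := by
      intro P hP hP' k
      obtain ⟨x, y, hxy, h0⟩ := hP 0
      obtain ⟨v, w, hvw, hle⟩ := ps_edge hQY hxy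
      have hanti : ∀ i, P i ≤ P 0 := by
        intro i
        induction i with
        | zero => exact le_rfl
        | succ i ih => exact (hP' i).trans ih
      exact ch_sub (hnQ v w hvw) P (fun i => ((hanti i).trans (h0.le)).trans hle) hP' k
    -- finite stabilisers
    obtain ⟨M, hM⟩ := hB (fun m a b => ∀ a' b' : W, (a' : V) = a → (b' : V) = b → ∀ F : Subgroup ρ.range,
        F ≤ Ps ρ.range a' b' → (F : Set ρ.range).Finite → (F : Set ρ.range).ncard ≤ m)
      (fun m n a b hmn h a' b' ha hb F hF hf => (h a' b' ha hb F hF hf).trans hmn)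
      (by
        intro m g a b h a' b' ha hb F hF hf
        have h1 := h (g⁻¹ • a') (g⁻¹ • b') (by
          show g⁻¹ • (a' : V) = a
          rw [ha, inv_smul_smul]) (by
          show g⁻¹ • (b' : V) = b
          rw [hb, inv_smul_smul]) (F.map (MulAut.conj (p g)⁻¹).toMonoidHom) (by
          rintro _ ⟨q, hq, rfl⟩
          have h2 := hF hq
          have h3 : q • a' = a' := h2.1
          have h4 : q • b' = b' := h2.2
          have h5 : ∀ u : W, g⁻¹ • u = (p g)⁻¹ • u := by
            intro u
            rw [← map_inv, hact]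
          refine ⟨?_, ?_⟩
          · show ((p g)⁻¹ * q * (p g)⁻¹⁻¹) • (g⁻¹ • a') = g⁻¹ • a'
            rw [h5, mul_smul, mul_smul, inv_inv, smul_inv_smul, h3]
          · show ((p g)⁻¹ * q * (p g)⁻¹⁻¹) • (g⁻¹ • b') = g⁻¹ • b'
            rw [h5, mul_smul, mul_smul, inv_inv, smul_inv_smul, h4]) (by
          rw [Subgroup.coe_map]
          exact hf.image _)
        rw [Subgroup.coe_map] at h1
        rwa [Set.ncard_image_of_injective _ (show Function.Injective (MulAut.conj (p g)⁻¹).toMonoidHom from
          (MulAut.conj (p g)⁻¹).injective)] at h1)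
      (by
        intro a b hab
        by_cases hab' : a ∈ W ∧ b ∈ W
        · obtain ⟨haW, hbW⟩ := hab'
          obtain ⟨f, hf⟩ := hPm ⟨a, haW⟩ ⟨b, hbW⟩
          obtain ⟨M, hM⟩ := fin_bd' (vp_surj f hf (hE a b hab))
          refine ⟨M, ?_⟩
          rintro ⟨a', ha'⟩ ⟨b', hb'⟩ rfl rfl F hF hf
          exact hM F hF hf
        · refine ⟨0, fun a' b' ha hb => ?_⟩
          exact absurd ⟨ha ▸ a'.2, hb ▸ b'.2⟩ hab')
    refine com_ext hC hT hfg p hp hQY (D := n) (N := M) ?_ ?_ hD ?_ ?_
    · intro w
      exact hC.of_injective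
        { toFun := fun x : (MulAction.stabilizer ρ.range w).comap p =>
            (⟨x.1, (hval x.1 w).1 x.2⟩ : MulAction.stabilizer H (w : V))
          map_one' := rfl
          map_mul' := fun _ _ => rfl } (fun a b hab => Subtype.ext (Subtype.mk.inj hab)) (hv w)
    · intro U hU
      let f : U.comap p →* U :=
        { toFun := fun x => ⟨p x.1, x.2⟩
          map_one' := Subtype.ext (map_one p)
          map_mul' := fun a b => Subtype.ext (map_mul p a.1 b.1) }
      have hf : Function.Surjective f := by
        rintro ⟨q, hq⟩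
        obtain ⟨h, rfl⟩ := hp q
        exact ⟨⟨h, hq⟩, rfl⟩
      have hfix : ∀ x : f.ker, ∀ w : W, x.1.1 • (w : V) = w := by
        intro x w
        have h1 : p x.1.1 = 1 := congrArg Subtype.val (show f x.1 = 1 from x.2)
        rw [← hval, h1, one_smul]
      have hk : VP f.ker := by
        refine vp_inj (B := Ps H (a0 : V) (b0 : V))
          { toFun := fun x : f.ker => (⟨x.1.1, hfix x a0, hfix x b0⟩ : Ps H (a0 : V) (b0 : V))
            map_one' := rfl
            map_mul' := fun _ _ => rfl } (fun a b hab => Subtype.ext (Subtype.ext (Subtype.mk.inj hab)))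
          (hE _ _ (hYX a0 b0 hab0))
      exact vp_mem hC hS (vp_ext f hf hk hU)
    · intro x y hxy hfin
      obtain ⟨v, w, hvw, hle⟩ := ps_edge hQY hxy
      exact hM v w hvw v w rfl rfl _ hle hfin
    · intro x y hxy hinf
      rw [com_comap p hp, hPc]
      refine hcm _ _ (hneV x y hxy) ?_
      have h1 : Kf H V ≤ p.ker := by
        intro h hh
        rw [mem_kf] at hh
        rw [MonoidHom.mem_ker]
        apply Subtype.ext
        apply Equiv.ext
        intro w
        show ρ h w = w
        rw [hρ']
        exact Subtype.ext (hh w)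
      refine Subgroup.relIndex_eq_zero_of_le_left h1 ?_
      rw [Subgroup.relIndex_ker]
      have h2 : (Ps H (x : V) (y : V)).map p = Ps ρ.range x y := by
        rw [← hPc, Subgroup.map_comap_eq_self_of_surjective hp]
      rw [h2]
      have h3 : Infinite (Ps ρ.range x y) := Set.infinite_coe_iff.2 hinf
      exact Nat.card_eq_zero_of_infinite

end Pool.Agent.H75.CX
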