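import Pool.Agent.H75.CX.Stp

/-!
# [H75 CX Jmp] descending induction on the length

`Jm P j`: there is a descending chain below `P` with at least `j` infinite indices. `jm_le`: `ch_sub`. `jm_up`: let `Q i`, `k` be a chain for `P`; the chain `R 0 = P1`, `R (i + 1) = Q i ⊓ P'`, `k + 1`: the index `[R 0 : R 1]` is infinite because
`Q 0 ⊓ P' ≤ P'`, and if `[Q i : Q (i + 1)]` is infinite so is `[Q i ⊓ P' : Q (i + 1) ⊓ P']`, because `Q i ⊓ P'` has finite index in `Q i` (`P'` has finite index in `P`, `Q i ≤ P`): otherwise `Q (i + 1) ⊓ P'` has finite index in `Q i`, and so has `Q (i + 1)`.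
`ind`: for every `j` (descending from `j = n + 1`, or induction on `n + 1 - j`): for all infinite `P` contained in an edge stabiliser with `Jm P j`, `C (commensurator P)`. `j = n + 1`: `jm_le` is a contradiction. From `j + 1` to `j`: by `hb` let `BalS P`. By
`Pool.Agent.H76.VC.of_fg` consider a finitely generated subgroup of `commensurator P`, mapped to `H ≤ G`. `BalS P` gives `P'`; `step` for `H`, `P'`: for `P1 ≥ P'` with `P'.relIndex P1 = 0` in an edge stabiliser: `P1` is infinite (a finite group has finite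
indices), `jm_up`. `ind` is the case `j = 0` (`jm_zero`).
-/

set_option autoImplicit false

namespace Pool.Agent.H75.CX

open Pool.Agent.H98.FJ Pool.Agent.H93.TR Pool.Agent.H76.VC Pool.Agent.H76.GT

/-- there is a descending chain below `P` with at least `j` infinite indices -/
def Jm {G : Type} [Group G] (P : Subgroup G) (j : ℕ) : Prop :=
  ∃ (Q : ℕ → Subgroup G) (k : ℕ), (∀ i, Q i ≤ P) ∧ (∀ i, Q (i + 1) ≤ Q i) ∧
    j ≤ {i | i < k ∧ (Q (i + 1)).relIndex (Q i) = 0}.ncard

theorem jm_zero {G : Type} [Group G] (P : Subgroup G) : Jm P 0 :=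
  ⟨fun _ => P, 0, fun _ => le_rfl, fun _ => le_rfl, Nat.zero_le _⟩

theorem jm_le {G : Type} [Group G] {n : ℕ} {P E : Subgroup G} (hP : P ≤ E) (hE : VPn n E) {j : ℕ} (h : Jm P j) : j ≤ n := by
  obtain ⟨Q, k, hQP, hQ, hj⟩ := h
  exact hj.trans (ch_sub hE Q (fun i => (hQP i).trans hP) hQ k)

theorem jm_up {G : Type} [Group G] {P P' P1 : Subgroup G} (h1 : P' ≤ P) (h2 : P'.relIndex P ≠ 0) (h3 : P' ≤ P1)
    (h4 : P'.relIndex P1 = 0) {j : ℕ} (h : Jm P j) : Jm P1 (j + 1) := by
  obtain ⟨Q, k, hQP, hQ, hj⟩ := h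
  refine ⟨fun i => Nat.casesOn i P1 fun i => Q i ⊓ P', k + 1, ?_, ?_, ?_⟩
  · intro i
    cases i with
    | zero => exact le_rfl
    | succ i => exact inf_le_right.trans h3
  · intro i
    cases i with
    | zero => exact inf_le_right.trans h3
    | succ i => exact inf_le_inf_right _ (hQ i)
  · have hfin : {i | i < k ∧ (Q (i + 1)).relIndex (Q i) = 0}.Finite :=
      (Set.finite_lt_nat k).subset fun i hi => hi.1
    have h5 : (insert 0 (Nat.succ '' {i | i < k ∧ (Q (i + 1)).relIndex (Q i) = 0})).ncard =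
        {i | i < k ∧ (Q (i + 1)).relIndex (Q i) = 0}.ncard + 1 := by
      rw [Set.ncard_insert_of_notMem _ (hfin.image _), Set.ncard_image_of_injective _ Nat.succ_injective]
      rintro ⟨i, _, hi⟩
      exact Nat.succ_ne_zero i hi
    refine (Nat.add_le_add_right hj 1).trans (h5.symm.le.trans (Set.ncard_le_ncard ?_
      ((Set.finite_lt_nat (k + 1)).subset fun i hi => hi.1)))
    intro i hi
    rw [Set.mem_insert_iff] at hi
    rcases hi with rfl | ⟨i, ⟨hik, hi0⟩, rfl⟩
    · refine ⟨Nat.succ_pos k, ?_⟩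
      change (Q 0 ⊓ P').relIndex P1 = 0
      exact Subgroup.relIndex_eq_zero_of_le_left inf_le_right h4
    · refine ⟨Nat.succ_lt_succ hik, ?_⟩
      change (Q (i + 1) ⊓ P').relIndex (Q i ⊓ P') = 0
      by_contra hne
      have h6 : (Q i ⊓ P').relIndex (Q i) ≠ 0 := by
        rw [Subgroup.inf_relIndex_left]
        exact fun h7 => h2 (Subgroup.relIndex_eq_zero_of_le_right (hQP i) h7)
      have h7 : (Q (i + 1) ⊓ P').relIndex (Q i) ≠ 0 := by
        rw [← Subgroup.relIndex_mul_relIndex (Q (i + 1) ⊓ P') (Q i ⊓ P') (Q i)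
          (inf_le_inf_right _ (hQ i)) inf_le_left]
        exact mul_ne_zero hne h6
      exact h7 (Subgroup.relIndex_eq_zero_of_le_left inf_le_left hi0)

theorem ind {C : (G : Type) → [Group G] → Prop} (hC : Inherits C) (hT : Transfer C)
    (hS : ∀ (G : Type) [Group G], Group.IsSolvable G → C G) {G V : Type} [Group G] [MulAction G V]
    {X : SimpleGraph V} (hX : OnTree G X) (hv : ∀ v : V, C (MulAction.stabilizer G v)) {n : ℕ}
    (hE : ∀ v w : V, X.Adj v w → VPn n (Ps G v w))
    (hb : ∀ P : Subgroup G, Infinite P → (∃ v w : V, X.Adj v w ∧ P ≤ Ps G v w) →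
      BalS P ∨ C (Subgroup.Commensurable.commensurator P))
    {P : Subgroup G} (hi : Infinite P) (hP : ∃ v w : V, X.Adj v w ∧ P ≤ Ps G v w) :
    C (Subgroup.Commensurable.commensurator P) := by
  have key : ∀ (d j : ℕ), j + d = n + 1 → ∀ P : Subgroup G, Infinite P →
      (∃ v w : V, X.Adj v w ∧ P ≤ Ps G v w) → Jm P j →
        C (Subgroup.Commensurable.commensurator P) := by
    intro d
    induction d with
    | zero =>
      intro j hj P hi hP hJ
      obtain ⟨v, w, hvw, hPv⟩ := hP
      have h1 := jm_le hPv (hE v w hvw) hJ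
      omega
    | succ d ih =>
      intro j hj P hi hP hJ
      rcases hb P hi hP with hB | hB
      swap
      · exact hB
      refine of_fg hC _ fun H hH => ?_
      have hH' : (H.map (Subgroup.Commensurable.commensurator P).subtype).FG := by
        obtain ⟨S, hS'⟩ := hH
        classical
        refine ⟨S.image (Subgroup.Commensurable.commensurator P).subtype, ?_⟩
        rw [Finset.coe_image, ← MonoidHom.map_closure, hS']
      obtain ⟨P', h1, h2, h3⟩ := hB _ hH' (by
        rintro _ ⟨x, _, rfl⟩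
        exact x.2)
      obtain ⟨v, w, hvw, hPv⟩ := hP
      have h4 : C (H.map (Subgroup.Commensurable.commensurator P).subtype) := by
        refine step hC hT hS hX hv (fun a b hab => ⟨n, hE a b hab⟩) hH' h3 v
          (fun y hy => (hPv (h1 hy)).1) fun P1 h5 h6 h7 => ?_
        have hi1 : Infinite P1 := by
          by_contra hfi
          rw [not_infinite_iff_finite] at hfi
          exact Subgroup.index_ne_zero_of_finite (H := P'.subgroupOf P1) h6
        exact ih (j + 1) (by omega) P1 hi1 h7 (jm_up h1 h2 h5 h6 hJ)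
      exact hC.iso _ _ (H.equivMapOfInjective _
        (Subgroup.subtype_injective (Subgroup.Commensurable.commensurator P))).symm h4
  exact key (n + 1) 0 (by omega) P hi hP (jm_zero P)

end Pool.Agent.H75.CX
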