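import Pool.Agent.H75.CX.Jmp
import Pool.Agent.H76.VC.ComMem

/-!
# [H75 CX Man] groups acting on trees with virtually polycyclic edge stabilisers

`main_fg`: let `W`, `Y` be the subtree of `Pool.Agent.H76.VC.exists_subtree`; its third part with `B n a b = VPn n (Ps G a b)` gives `n` with `VPn n (Ps G a b)` for all edges of `Y` (`vpn_mono`, `vpn_inj`; `Ps G a b` for `a b : W` and for the values in `V` are
the same subgroup). `ind` for `G`, `W`, `Y` (an edge of `Y` is an edge of `X`) gives `C (commensurator P)` for every infinite `P` which is contained in an edge stabiliser of `Y`. Then `step0` for `G`, `W`, `Y`: if `x ≠ y` and `(Kf G W).relIndex (Ps G x y) = 0` then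
`Ps G x y` is infinite, and it is contained in an edge stabiliser (`ps_edge`).
`main0`: `Pool.Agent.H76.VC.of_fg`; let `K ≤ G` be finitely generated, the group `K` acts on `V` (`res_onTree`, `res_stab` from H76/VC/ComMem; `Ps K v w` embeds in `Ps G v w`: `vp_inj`). Let `P ≤ K` be infinite, contained in `Ps K v w`; `P.map K.subtype` is infinite,
contained in `Ps G v w`. If `BalS (P.map K.subtype)` then `BalS P`: for `H ≤ K` finitely generated in the commensurator of `P`: `H.map K.subtype` is in the commensurator of `P.map K.subtype` (`com_sub`), so it normalises a subgroup `P'` of finite index; take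
`P'.comap K.subtype`. Otherwise `C (commensurator (P.map K.subtype))`, and `commensurator P` embeds in it (`com_sub`).
-/

set_option autoImplicit false

namespace Pool.Agent.H75.CX

open Pool.Agent.H98.FJ Pool.Agent.H93.TR Pool.Agent.H76.VC Pool.Agent.H76.GT

private theorem inf_rel {G : Type} [Group G] {K L : Subgroup G} (h : K.relIndex L = 0) : Infinite L := by
  by_contra h1
  have h2 : Finite L := not_infinite_iff_finite.1 h1
  exact Subgroup.index_ne_zero_of_finite (H := K.subgroupOf L) h

private theorem vpn_smul {G V : Type} [Group G] [MulAction G V] {n : ℕ} (g : G) (a b : V) (h : VPn n (Ps G a b)) :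
    VPn n (Ps G (g • a) (g • b)) := by
  have hm : ∀ x : Ps G (g • a) (g • b), g⁻¹ * x.1 * g ∈ Ps G a b := by
    rintro ⟨x, h1, h2⟩
    constructor
    · change (g⁻¹ * x * g) • a = a
      change x • g • a = g • a at h1
      rw [mul_smul, mul_smul, h1, inv_smul_smul]
    · change (g⁻¹ * x * g) • b = b
      change x • g • b = g • b at h2
      rw [mul_smul, mul_smul, h2, inv_smul_smul]
  let f : Ps G (g • a) (g • b) →* Ps G a b :=
    { toFun := fun x => ⟨g⁻¹ * x.1 * g, hm x⟩
      map_one' := by
        apply Subtype.ext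
        show g⁻¹ * (1 : G) * g = 1
        group
      map_mul' := by
        intro x y
        apply Subtype.ext
        show g⁻¹ * ((x : G) * (y : G)) * g = (g⁻¹ * (x : G) * g) * (g⁻¹ * (y : G) * g)
        group }
  refine vpn_inj f ?_ h
  intro x y hxy
  have h1 : g⁻¹ * (x : G) * g = g⁻¹ * (y : G) * g := congrArg (fun z : Ps G a b => (z : G)) hxy
  exact Subtype.ext (mul_left_cancel (mul_right_cancel h1))

private theorem fg_map {G H : Type} [Group G] [Group H] {K : Subgroup G} (h : K.FG) (f : G →* H) : (K.map f).FG := by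
  classical
  obtain ⟨S, hS⟩ := h
  refine ⟨S.image f, ?_⟩
  rw [Finset.coe_image, ← MonoidHom.map_closure, hS]

private theorem ps_val {G V : Type} [Group G] [MulAction G V] (W : SubMulAction G V) (a b : W) :
    Ps G a b = Ps G (a : V) (b : V) := by
  ext g
  constructor
  · rintro ⟨h1, h2⟩
    exact ⟨congrArg (fun z : W => (z : V)) h1, congrArg (fun z : W => (z : V)) h2⟩
  · rintro ⟨h1, h2⟩
    exact ⟨Subtype.ext h1, Subtype.ext h2⟩

private theorem stab_val {G V : Type} [Group G] [MulAction G V] (W : SubMulAction G V) (a : W) :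
    MulAction.stabilizer G a = MulAction.stabilizer G (a : V) := by
  ext g
  constructor
  · intro h1
    exact congrArg (fun z : W => (z : V)) h1
  · intro h1
    exact Subtype.ext h1

theorem main_fg {C : (G : Type) → [Group G] → Prop} (hC : Inherits C) (hT : Transfer C)
    (hS : ∀ (G : Type) [Group G], Group.IsSolvable G → C G) {G V : Type} [Group G] [MulAction G V] (hfg : Group.FG G)
    {X : SimpleGraph V} (hX : OnTree G X) (hv : ∀ v : V, C (MulAction.stabilizer G v))
    (hE : ∀ v w : V, X.Adj v w → VP (Ps G v w))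
    (hb : ∀ P : Subgroup G, Infinite P → (∃ v w : V, X.Adj v w ∧ P ≤ Ps G v w) →
      BalS P ∨ C (Subgroup.Commensurable.commensurator P)) : C G := by
  obtain ⟨W, Y, hY, hYX, hB⟩ := exists_subtree hX hfg
  obtain ⟨n, hn⟩ := hB (fun n a b => VPn n (Ps G a b)) (fun m n a b hmn h => vpn_mono hmn h)
    (fun n g a b h => vpn_smul g a b h) (fun a b h => hE a b h)
  have hn' : ∀ a b : W, Y.Adj a b → VPn n (Ps G a b) := fun a b h => by
    rw [ps_val]
    exact hn a b h
  have hvW : ∀ w : W, C (MulAction.stabilizer G w) := fun w => by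
    rw [stab_val]
    exact hv w
  have hbW : ∀ P : Subgroup G, Infinite P → (∃ v w : W, Y.Adj v w ∧ P ≤ Ps G v w) →
      BalS P ∨ C (Subgroup.Commensurable.commensurator P) := by
    rintro P hP ⟨v, w, h1, h2⟩
    exact hb P hP ⟨v, w, hYX v w h1, h2.trans_eq (ps_val W v w)⟩
  refine step0 hC hT hS hfg hY hvW (fun v w h => ⟨n, hn' v w h⟩) ?_
  intro x y hxy h0
  obtain ⟨v, w, h1, h2⟩ := ps_edge hY hxy
  exact ind hC hT hS hY hvW hn' hbW (inf_rel h0) ⟨v, w, h1, h2⟩

theorem main0 {C : (G : Type) → [Group G] → Prop} (hC : Inherits C) (hT : Transfer C)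
    (hS : ∀ (G : Type) [Group G], Group.IsSolvable G → C G) {G V : Type} [Group G] [MulAction G V]
    {X : SimpleGraph V} (hX : OnTree G X) (hv : ∀ v : V, C (MulAction.stabilizer G v))
    (hE : ∀ v w : V, X.Adj v w → VP (Ps G v w))
    (hb : ∀ P : Subgroup G, Infinite P → (∃ v w : V, X.Adj v w ∧ P ≤ Ps G v w) →
      BalS P ∨ C (Subgroup.Commensurable.commensurator P)) : C G := by
  refine of_fg hC G (fun K hK => ?_)
  have hfg : Group.FG K := (Group.fg_iff_subgroup_fg _).2 hK
  have hEK : ∀ v w : V, X.Adj v w → VP (Ps K v w) := by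
    intro v w h
    let ψ : Ps K v w →* Ps G v w :=
      { toFun := fun h => ⟨(h.1 : G), h.2⟩
        map_one' := rfl
        map_mul' := fun _ _ => rfl }
    refine vp_inj ψ ?_ (hE v w h)
    intro a b hab
    have h1 : ((a.1 : K) : G) = b.1 := congrArg (fun z : Ps G v w => (z : G)) hab
    exact Subtype.ext (Subtype.ext h1)
  refine main_fg hC hT hS hfg (res_onTree hX K) (res_stab hC hv K) hEK ?_
  rintro P hP ⟨v, w, h1, h2⟩
  have hP' : Infinite (P.map K.subtype) :=
    Infinite.of_injective _ (P.equivMapOfInjective K.subtype K.subtype_injective).injective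
  have hle : P.map K.subtype ≤ Ps G v w := by
    rintro _ ⟨x, hx, rfl⟩
    exact ⟨(h2 hx).1, (h2 hx).2⟩
  rcases hb _ hP' ⟨v, w, h1, hle⟩ with h3 | h3
  · left
    intro H hH hHc
    obtain ⟨P', h4, h5, h6⟩ := h3 (H.map K.subtype) (fg_map hH K.subtype) (by
      rintro _ ⟨x, hx, rfl⟩
      exact (com_sub P x).1 (hHc hx))
    refine ⟨P'.comap K.subtype, ?_, ?_, ?_⟩
    · intro x hx
      obtain ⟨y, hy, hyx⟩ := h4 hx
      rwa [← K.subtype_injective hyx]
    · have h7 : (P'.comap K.subtype).map K.subtype = P' := by
        apply Subgroup.map_comap_eq_self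
        intro x hx
        obtain ⟨y, -, hyx⟩ := h4 hx
        exact ⟨y, hyx⟩
      rw [← Subgroup.relIndex_map_map_of_injective _ _ K.subtype_injective, h7]
      exact h5
    · intro x hx
      have h8 := Subgroup.mem_normalizer_iff.1 (h6 ⟨x, hx, rfl⟩)
      rw [Subgroup.mem_normalizer_iff]
      intro y
      exact h8 (y : G)
  · right
    refine hC.of_injective (H := (Subgroup.Commensurable.commensurator (P.map K.subtype) : Subgroup G))
      { toFun := fun x => ⟨((x.1 : K) : G), (com_sub P x.1).1 x.2⟩
        map_one' := rfl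
        map_mul' := fun _ _ => rfl } ?_ h3
    intro a b hab
    have h4 : ((a.1 : K) : G) = b.1 :=
      congrArg (fun z : (Subgroup.Commensurable.commensurator (P.map K.subtype) : Subgroup G) => (z : G)) hab
    exact Subtype.ext (Subtype.ext h4)

end Pool.Agent.H75.CX
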