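import Pool.Agent.H76.VC.Sub
import Pool.Agent.H75.CX.Defs

/-!
# [H75 CX Fx] the tree of the fixed points of a normalised subgroup

Same proof as `fix_tree` in Pool/Agent/H76/VC/Sub.lean (with its two private lemmas on `comap`): `W = {v | ∀ y ∈ P, y • v = v}` is invariant under `H` because `H` normalises `P`, and convex because a path between two fixed vertices
is fixed. `H` acts on `V` through its inclusion in `G`.
-/

set_option autoImplicit false

namespace Pool.Agent.H75.CX

open Pool.Agent.H98.FJ Pool.Agent.H76.VC Pool.Agent.H93.TR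

private theorem fx_reach {G V : Type} [Group G] [MulAction G V] {Y : SimpleGraph V} {W : SubMulAction G V} {v w : V}
    (q : Y.Walk v w) (hq : ∀ x ∈ q.support, x ∈ W) :
    (Y.comap (fun x : W => (x : V))).Reachable ⟨v, hq v q.start_mem_support⟩ ⟨w, hq w q.end_mem_support⟩ := by
  induction q with
  | nil => exact SimpleGraph.Reachable.refl _
  | @cons a b c h q ih =>
    have h1 : ∀ x ∈ q.support, x ∈ W := fun x hx => hq x (by
      rw [SimpleGraph.Walk.support_cons]
      exact List.mem_cons_of_mem _ hx)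
    have h2 : (Y.comap (fun x : W => (x : V))).Adj ⟨a, hq a (by simp)⟩ ⟨b, h1 b q.start_mem_support⟩ := h
    exact h2.reachable.trans (ih h1)

private theorem fx_acyclic {G V : Type} [Group G] [MulAction G V] {Y : SimpleGraph V} (hX : Y.IsAcyclic)
    (W : SubMulAction G V) : (Y.comap (fun x : W => (x : V))).IsAcyclic :=
  hX.comap ⟨fun x : W => (x : V), fun {_ _} h => h⟩ Subtype.val_injective

theorem fix_tree' {G V : Type} [Group G] [MulAction G V] {X : SimpleGraph V} (hX : OnTree G X) {H P : Subgroup G}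
    (hn : H ≤ Subgroup.normalizer (P : Set G)) (v0 : V) (h0 : ∀ y ∈ P, y • v0 = v0) :
    ∃ W : SubMulAction H V, (∀ v : V, v ∈ W ↔ ∀ y ∈ P, y • v = v) ∧ OnTree H (X.comap (fun w : W => (w : V))) := by
  let W : SubMulAction H V :=
    { carrier := {v | ∀ y ∈ P, y • v = v}
      smul_mem' := fun g v (hv : ∀ y ∈ P, y • v = v) => by
        intro y hy
        change y • (g : G) • v = (g : G) • v
        have h1 : (g : G)⁻¹ * y * (g : G) ∈ P := by
          have h2 := (Subgroup.mem_normalizer_iff''.1 (hn g.2) y).1 hy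
          exact h2
        have h3 := hv _ h1
        calc y • (g : G) • v = (g : G) • ((g : G)⁻¹ * y * (g : G)) • v := by
              rw [← mul_smul, ← mul_smul]
              congr 1
              group
          _ = (g : G) • v := by rw [h3] }
  have hWmem : ∀ v, v ∈ W ↔ ∀ y ∈ P, y • v = v := fun v => Iff.rfl
  refine ⟨W, hWmem, ⟨⟨?_, fx_acyclic hX.tree.isAcyclic W⟩, ?_⟩⟩
  · have : Nonempty W := ⟨⟨v0, h0⟩⟩
    refine ⟨?_⟩
    rintro ⟨a, ha⟩ ⟨b, hb⟩
    obtain ⟨p, hp⟩ := fixed_walk hX a b
    exact fx_reach (G := H) (W := W) p fun x hx => (hWmem x).2 fun y hy =>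
      hp y ((hWmem a).1 ha y hy) ((hWmem b).1 hb y hy) x hx
  · intro g a b h
    exact hX.adj (g : G) _ _ h

end Pool.Agent.H75.CX
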