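import Pool.Agent.H75.CX.Lr
import Pool.Agent.H76.GU.PTL
import Pool.Agent.H54.AX.Ct
import Pool.Agent.H54.AX.Rd

/-!
# [H75 CX Ext] the extension theorem with commensurators

`Q = p G` is finitely generated, so countable (`Pool.Agent.H76.VC.countable_of_fg`). `exists_ctree` gives a countable invariant subtree `W`; the path stabilisers of `W` are path
stabilisers of `V`. `locRig` for `Q` on `W`, and `Pool.Agent.H76.GT.pt_loc` with `n = 1` for `G` with the action `MulAction.compHom W p` (see `one_tree` in
Pool/Agent/H54/AX/Rd.lean and `pt1` in Pool/Agent/H54/PQ/Fin.lean).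
-/

set_option autoImplicit false

namespace Pool.Agent.H75.CX

open Pool.Agent.H98.FJ Pool.Agent.H93.TR Pool.Agent.H54.AX Pool.Agent.H76.VC Pool.Agent.H76.GT

/-- stabilisers of paths of an invariant subset -/
private theorem ps_coe {Q V : Type} [Group Q] [MulAction Q V] (W : SubMulAction Q V) (x y : W) :
    Ps Q x y = Ps Q (x : V) (y : V) := by
  have key : ∀ (q : Q) (u : W), q • u = u ↔ q • (u : V) = u := by
    intro q u
    constructor
    · intro h
      exact congrArg Subtype.val h
    · intro h
      exact Subtype.ext h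
  ext q
  rw [mem_ps, mem_ps, key, key]

theorem com_ext {C : (G : Type) → [Group G] → Prop} (hC : Inherits C) (hT : Transfer C) {G Q V : Type} [Group G] [Group Q]
    [MulAction Q V] (hfg : Group.FG G) (p : G →* Q) (hp : Function.Surjective p) {X : SimpleGraph V} (hX : OnTree Q X)
    (hst : ∀ v : V, C ((MulAction.stabilizer Q v).comap p))
    (hVC : ∀ U : Subgroup Q, VirtuallyCyclic U → C (U.comap p))
    {D N : ℕ} (hD : Ch (fun P : Subgroup Q => ∃ x y : V, x ≠ y ∧ P = Ps Q x y) D)
    (hN : ∀ x y : V, x ≠ y → (Ps Q x y : Set Q).Finite → (Ps Q x y : Set Q).ncard ≤ N)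
    (hCm : ∀ x y : V, x ≠ y → ¬ (Ps Q x y : Set Q).Finite →
      C ((Subgroup.Commensurable.commensurator (Ps Q x y)).comap p)) : C G := by
  have hcG : Countable G := countable_of_fg hfg
  have hcQ : Countable Q := hp.countable
  obtain ⟨W, hW, hXW, -⟩ := exists_ctree hX
  have hne : ∀ x y : W, x ≠ y → (x : V) ≠ y := fun x y h e => h (Subtype.ext e)
  have hL : @LocRig C G _ 1 (fun _ => W) (fun _ => MulAction.compHom W p)
      (fun _ => X.comap (fun x : W => (x : V))) (D + 2) := by
    refine locRig hC p hXW hVC (D := D) (N := N) ?_ ?_ ?_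
    · intro P hP hP'
      refine hD P (fun i => ?_) hP'
      obtain ⟨x, y, hxy, h⟩ := hP i
      exact ⟨x, y, hne x y hxy, h.trans (ps_coe W x y)⟩
    · intro x y hxy h
      rw [ps_coe] at h ⊢
      exact hN _ _ (hne x y hxy) h
    · intro x y hxy h
      rw [ps_coe] at h ⊢
      exact hCm _ _ (hne x y hxy) h
  letI hGW : MulAction G W := MulAction.compHom W p
  have := hXW.tree.connected.nonempty
  have hPres : Pres G (X.comap (fun x : W => (x : V))) := ⟨fun g x y h => hXW.adj (p g) x y h⟩
  refine pt_loc hC hT hfg one_pos (fun _ : Fin 1 => X.comap (fun x : W => (x : V))) (fun _ => hXW.tree)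
    (fun _ x => ?_) hL
  have h1 : ∀ y : MulAction.stabilizer G x, y.1 ∈ (MulAction.stabilizer Q (x : V)).comap p := by
    intro y
    have h2 : p y.1 • x = x := y.2
    exact congrArg Subtype.val h2
  exact hC.of_injective
    { toFun := fun y : MulAction.stabilizer G x => (⟨y.1, h1 y⟩ : (MulAction.stabilizer Q (x : V)).comap p)
      map_one' := rfl
      map_mul' := fun _ _ => rfl } (fun a b hab => Subtype.ext (Subtype.mk.inj hab)) (hst x)

end Pool.Agent.H75.CX
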