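import Pool.Agent.H54.AX.Lr
import Pool.Agent.H75.CX.Cp
import Pool.Agent.H75.CX.Ax
import Pool.Agent.H75.CX.Mn

/-!
# [H75 CX Lr] local rigidity from bounded chains of path stabilisers

Model: `Pool.Agent.H54.AX.locRig` (Pool/Agent/H54/AX/Lr.lean), `fb`, `fb_bx`, `fb_smul` from there. Let `K j = 1 + 2 R j`, `K' = K (D + 1)`, `b = K' + R`,
`r = (N + 2) (a a) + 3 b + a + a + 2` (at least `b + a`, `a + 2 + a`). All objects are in `CC Q` with the action `ccAct p`. Write `F = fb (B 0)` for a box `B`.
Objects for `t ≤ D` (`(t : ℕ) ≤ D`): `o = cl (Ps Q (F (-(K t + R))) (F (K t + R)))`, if these two vertices are different and `Ps` is infinite. Object for `t = D + 1`: `Geo1 X r F`, the set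
`Ps Q (F (-b)) (F b)` is finite, and there are `h`, `v ≠ 0`, `|v| ≤ a`, `Trn1 (r - a) F h v`, with `o = cl (zpowers h)`.
Uniqueness: clear for `t ≤ D`; for `D + 1`: `common_power_at` (`s` = the finite set `Ps Q (F (-b)) (F b)`, at most `N` elements by `hN`), `zpow_com`, `cl_eq`. Equivariance: `conj_ps`,
`conj_zpowers`, `fb_smul`, `dist_sm'`, finiteness of a conjugate. Stabilisers: `stab_cc` and `hCm`; for `D + 1`: `com_vc_at` (`m = r - a`), `com_zpow`, `hVC (Com h)`.
Alternative: let `f` be geodesic for `|i| ≤ r + R + a`, `P δ k = Ps Q (f (δ - k)) (f (δ + k))`. (A) If there is `j ≤ D` with `P 0 (K (j+1))` infinite and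
`(P 0 (K (j+1))).relIndex (P 0 (K j)) ≠ 0`: the object `t = j`, `o = cl (P 0 (K j))`: for `|δ| ≤ R` `P 0 (K (j+1)) ≤ P δ (K j + R) ≤ P 0 (K j)` (`ps_mono`), so it is infinite and
commensurable. (B) Otherwise `P 0 K'` is finite: if not, all `P 0 (K j)`, `j ≤ D + 1`, are infinite and all `D + 1` indices are infinite, a contradiction to `hD` for the chain
`i ↦ P 0 (K (min i (D + 1)))` and `k = D + 1`. If there is a `g` with `Trn (r + R) f g v`, `v ≠ 0`, `|v| ≤ a`: the object `D + 1`, `o = cl (zpowers (p g))`: for `|δ| ≤ R`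
`P δ b ≤ P 0 K'` is finite. Otherwise the second alternative.
-/

set_option autoImplicit false

namespace Pool.Agent.H75.CX

open Pool.Agent.H98.FJ Pool.Agent.H93.TR Pool.Agent.H54.AX Pool.Agent.H76.VC Pool.Agent.H76.GT

open scoped Pointwise

/-- the objects for path stabilisers -/
private def Ob1 (Q : Type) [Group Q] {V : Type} [MulAction Q V] (c : ℕ) (F : ℤ → V) (o : CC Q) : Prop :=
  F (-(c : ℤ)) ≠ F c ∧ ¬ (Ps Q (F (-(c : ℤ))) (F c) : Set Q).Finite ∧ o = cl (Ps Q (F (-(c : ℤ))) (F c))

/-- the object for translations -/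
private def Ob2 (Q : Type) [Group Q] {V : Type} [MulAction Q V] (X : SimpleGraph V) (r a b : ℕ) (F : ℤ → V) (o : CC Q) :
    Prop :=
  Geo1 X r F ∧ (Ps Q (F (-(b : ℤ))) (F b) : Set Q).Finite ∧
    ∃ (h : Q) (v : ℤ), v ≠ 0 ∧ |v| ≤ a ∧ Trn1 (r - a) F h v ∧ o = cl (Subgroup.zpowers h)

private theorem finite_conj {Q V : Type} [Group Q] [MulAction Q V] (q : Q) (x y : V) :
    (Ps Q (q • x) (q • y) : Set Q).Finite ↔ (Ps Q x y : Set Q).Finite := by
  have key : ∀ (q : Q) (x y : V), (Ps Q x y : Set Q).Finite → (Ps Q (q • x) (q • y) : Set Q).Finite := by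
    intro q x y h
    refine Set.Finite.of_injOn (f := fun z => q⁻¹ * z * q) (t := (Ps Q x y : Set Q)) ?_ ?_ h
    · intro z hz
      have hz' := mem_ps.1 hz
      refine mem_ps.2 ⟨?_, ?_⟩
      · rw [mul_smul, mul_smul, hz'.1, inv_smul_smul]
      · rw [mul_smul, mul_smul, hz'.2, inv_smul_smul]
    · intro z _ w _ hzw
      have h1 : q⁻¹ * z * q = q⁻¹ * w * q := hzw
      exact mul_left_cancel (mul_right_cancel h1)
  refine ⟨fun h => ?_, key q x y⟩
  have := key q⁻¹ _ _ h
  rwa [inv_smul_smul, inv_smul_smul] at this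

private theorem ob1_smul {G Q V : Type} [Group G] [Group Q] [MulAction Q V] (p : G →* Q) {c : ℕ} {F : ℤ → V} {o : CC Q}
    (g : G) (h : Ob1 Q c F o) : Ob1 Q c (fun i => p g • F i) ((ccAct p).toSMul.smul g o) := by
  obtain ⟨h1, h2, rfl⟩ := h
  refine ⟨fun e => h1 (MulAction.injective (p g) e), ?_, ?_⟩
  · intro h3
    exact h2 ((finite_conj (p g) _ _).1 h3)
  · rw [smul_cl, conj_ps]

private theorem ob2_smul {G Q V : Type} [Group G] [Group Q] [MulAction Q V] (p : G →* Q) {X : SimpleGraph V}
    (hX : OnTree Q X) {r a b : ℕ} {F : ℤ → V} {o : CC Q}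
    (g : G) (h : Ob2 Q X r a b F o) : Ob2 Q X r a b (fun i => p g • F i) ((ccAct p).toSMul.smul g o) := by
  obtain ⟨h1, h2, q, v, hv, hva, ht, rfl⟩ := h
  refine ⟨?_, (finite_conj (p g) _ _).2 h2, p g * q * (p g)⁻¹, v, hv, hva, ?_, ?_⟩
  · intro i j hi hj
    show (X.dist (p g • F i) (p g • F j) : ℤ) = |i - j|
    rw [dist_sm' hX]
    exact h1 i j hi hj
  · intro i hi
    show (p g * q * (p g)⁻¹) • p g • F i = p g • F (i + v)
    rw [mul_smul, mul_smul, inv_smul_smul, ht i hi]
  · rw [smul_cl, conj_zpowers]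

private theorem com_le {Q : Type} [Group Q] {A B D : Subgroup Q} (h1 : A ≤ B) (h2 : B ≤ D) (h3 : A.relIndex D ≠ 0) :
    Subgroup.Commensurable D B := by
  refine ⟨?_, ?_⟩
  · rw [Subgroup.relIndex_eq_one.2 h2]
    exact one_ne_zero
  · intro h4
    apply h3
    have h5 := Subgroup.relIndex_mul_relIndex A B D h1 h2
    rw [h4, mul_zero] at h5
    exact h5.symm

theorem locRig {C : (G : Type) → [Group G] → Prop} (hC : Inherits C) {G Q V : Type} [Group G] [Group Q] [MulAction Q V]
    (p : G →* Q) {X : SimpleGraph V} (hX : OnTree Q X) (hVC : ∀ U : Subgroup Q, VirtuallyCyclic U → C (U.comap p))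
    {D N : ℕ} (hD : Ch (fun P : Subgroup Q => ∃ x y : V, x ≠ y ∧ P = Ps Q x y) D)
    (hN : ∀ x y : V, x ≠ y → (Ps Q x y : Set Q).Finite → (Ps Q x y : Set Q).ncard ≤ N)
    (hCm : ∀ x y : V, x ≠ y → ¬ (Ps Q x y : Set Q).Finite →
      C ((Subgroup.Commensurable.commensurator (Ps Q x y)).comap p)) :
    @LocRig C G _ 1 (fun _ => V) (fun _ => MulAction.compHom V p) (fun _ => X) (D + 2) := by
  let hGV : MulAction G V := MulAction.compHom V p
  have hact : ∀ (g : G) (x : V), g • x = p g • x := fun g x => rfl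
  intro R a
  let K : ℕ → ℕ := fun j => 1 + 2 * R * j
  let b : ℕ := K (D + 1) + R
  let r : ℕ := (N + 2) * (a * a) + 3 * b + a + a + 2
  have hr : (r - a) + a = r := by omega
  have hbr : b + a ≤ r := by omega
  have hb0 : 0 < b := by
    show 0 < 1 + 2 * R * (D + 1) + R
    omega
  have hK : ∀ j, K (j + 1) = K j + 2 * R := fun j => by
    show 1 + 2 * R * (j + 1) = 1 + 2 * R * j + 2 * R
    ring
  have hKm : ∀ i j, i ≤ j → K i ≤ K j := fun i j hij => by
    show 1 + 2 * R * i ≤ 1 + 2 * R * j
    exact Nat.add_le_add_left (Nat.mul_le_mul_left _ hij) 1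
  have hK0 : ∀ j, 0 < K j := fun j => by
    show 0 < 1 + 2 * R * j
    omega
  let Obj : Fin (D + 2) → Bx (fun _ : Fin 1 => V) r → CC Q → Prop := fun t B o =>
    if (t : ℕ) ≤ D then Ob1 Q (K t + R) (fb (B 0)) o else Ob2 Q X r a b (fb (B 0)) o
  have hstab : ∀ P : Subgroup Q, C ((Subgroup.Commensurable.commensurator P).comap p) →
      C (@MulAction.stabilizer G (CC Q) _ (ccAct p) (cl P)) := by
    intro P hP
    exact hC.of_injective
      { toFun := fun x : @MulAction.stabilizer G (CC Q) _ (ccAct p) (cl P) =>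
          (⟨x.1, (stab_cc p x.1 P).1 x.2⟩ : (Subgroup.Commensurable.commensurator P).comap p)
        map_one' := rfl
        map_mul' := fun _ _ => rfl } (fun x y hxy => Subtype.ext (Subtype.mk.inj hxy)) hP
  refine ⟨r, fun _ => CC Q, fun _ => ccAct p, Obj, ?_, ?_, ?_, ?_⟩
  · intro t B o o' h h'
    by_cases ht : (t : ℕ) ≤ D
    · simp only [Obj, if_pos ht] at h h'
      rw [h.2.2, h'.2.2]
    · simp only [Obj, if_neg ht] at h h'
      obtain ⟨hg, hf, q, v, hv, hva, h1, rfl⟩ := h
      obtain ⟨-, -, q', v', hv', hva', h1', rfl⟩ := h'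
      have hne : fb (B 0) (-(b : ℤ)) ≠ fb (B 0) (b : ℤ) :=
        geo_ne hg (by omega) (by omega) (by omega)
      have hcard := hN _ _ hne hf
      obtain ⟨c, c', hc, hc', e⟩ := common_power_at (b := b) (N := N) (a := a) (m := r - a) (s := hf.toFinset) (by omega)
        (by rw [hr]; exact hg) (by rw [← Set.ncard_eq_toFinset_card _ hf]; exact hcard)
        (fun x hx hy => hf.mem_toFinset.2 (mem_ps.2 ⟨hx, hy⟩)) hv hv' hva hva' h1 h1'
      exact cl_eq.2 (zpow_com hc hc' e)
  · intro t B o g h
    have hfun : fb ((g • B) 0) = fun i => p g • fb (B 0) i := by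
      funext i
      show fb (g • (B 0 : Fin (2 * r + 1) → V)) i = p g • fb (B 0) i
      rw [fb_smul, hact]
    by_cases ht : (t : ℕ) ≤ D
    · simp only [Obj, if_pos ht] at h ⊢
      rw [hfun]
      exact ob1_smul p g h
    · simp only [Obj, if_neg ht] at h ⊢
      rw [hfun]
      exact ob2_smul p hX g h
  · intro t B o h
    by_cases ht : (t : ℕ) ≤ D
    · simp only [Obj, if_pos ht] at h
      obtain ⟨h1, h2, rfl⟩ := h
      exact hstab _ (hCm _ _ h1 h2)
    · simp only [Obj, if_neg ht] at h
      obtain ⟨hg, hf, q, v, hv, hva, h1, rfl⟩ := h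
      obtain ⟨h2, h3⟩ := com_vc_at hX (m := r - a) (a := a) (b := b) (f := fb (B 0)) (by rw [hr]; exact hg) hv hva
        (by omega) (by omega) hb0 h1 hf
      refine hstab _ ?_
      have h4 : C ((Com q).comap p) := hVC _ h3
      exact hC.of_injective (Subgroup.inclusion (Subgroup.comap_mono (f := p) (com_zpow h2)))
        (Subgroup.inclusion_injective _) h4
  · intro f hf
    have hf0 : Geo1 X (r + R + a) (f 0) := fun i j hi hj => hf 0 i j hi hj
    let P : ℤ → ℤ → Subgroup Q := fun δ k => Ps Q (f 0 (δ - k)) (f 0 (δ + k))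
    have hKb : ∀ j, j ≤ D + 1 → K j + R ≤ b := fun j hj => Nat.add_le_add_right (hKm j (D + 1) hj) R
    have hPm : ∀ δ k δ' k' : ℤ, δ' - k' ≤ δ - k → δ + k ≤ δ' + k' → 0 ≤ k → -((r + R + a : ℕ) : ℤ) ≤ δ' - k' →
        δ' + k' ≤ ((r + R + a : ℕ) : ℤ) → P δ' k' ≤ P δ k := by
      intro δ k δ' k' h1 h2 h3 h4 h5
      exact ps_mono hX hf0 h4 h1 (by linarith) h2 h5
    have hFb : ∀ (δ : Fin 1 → ℤ) (c : ℕ), c ≤ r →
        Ps Q (fb (bx r δ f 0) (-(c : ℤ))) (fb (bx r δ f 0) (c : ℤ)) = P (δ 0) c := by
      intro δ c hc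
      rw [fb_bx δ f (by rw [abs_neg, Nat.abs_cast]; exact_mod_cast hc), fb_bx δ f (by rw [Nat.abs_cast]; exact_mod_cast hc)]
      rfl
    by_cases hA : ∃ j, j ≤ D ∧ ¬ (P 0 (K (j + 1)) : Set Q).Finite ∧ (P 0 (K (j + 1))).relIndex (P 0 (K j)) ≠ 0
    · left
      obtain ⟨j, hj, hinf, hrel⟩ := hA
      refine ⟨⟨j, by omega⟩, cl (P 0 (K j)), fun δ hδ => ?_⟩
      have hδ0 := abs_le.1 (hδ 0)
      have hKj : K (j + 1) = K j + 2 * R := hK j
      have hKj' : K (j + 1) + R ≤ b := hKb (j + 1) (by omega)
      have h1 : P 0 (K (j + 1)) ≤ P (δ 0) ((K j + R : ℕ) : ℤ) := by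
        apply hPm
        · push_cast [hKj]
          linarith
        · push_cast [hKj]
          linarith
        · positivity
        · have : (K (j + 1) : ℤ) ≤ r := by exact_mod_cast (by omega : K (j + 1) ≤ r)
          push_cast
          linarith
        · have : (K (j + 1) : ℤ) ≤ r := by exact_mod_cast (by omega : K (j + 1) ≤ r)
          push_cast
          linarith
      have h2 : P (δ 0) ((K j + R : ℕ) : ℤ) ≤ P 0 (K j) := by
        have h3 : (K j + R + R : ℕ) ≤ r := by omega
        have h4 : ((K j : ℤ) + R + R) ≤ r := by exact_mod_cast h3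
        apply hPm
        · push_cast
          linarith
        · push_cast
          linarith
        · positivity
        · push_cast
          linarith
        · push_cast
          linarith
      show if (j : ℕ) ≤ D then Ob1 Q (K j + R) (fb (bx r δ f 0)) (cl (P 0 (K j))) else _
      rw [if_pos hj]
      have hjr : K j + R ≤ r := by omega
      refine ⟨?_, ?_, ?_⟩
      · rw [fb_bx δ f (by rw [abs_neg, Nat.abs_cast]; exact_mod_cast hjr),
          fb_bx δ f (by rw [Nat.abs_cast]; exact_mod_cast hjr)]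
        have h3 : (K j + R + R : ℕ) ≤ r := by omega
        have h4 : ((K j : ℤ) + R + R) ≤ r := by exact_mod_cast h3
        have h5 : (0 : ℤ) < K j := by exact_mod_cast hK0 j
        apply geo_ne hf0
        · push_cast
          linarith
        · push_cast
          linarith
        · push_cast
          linarith
      · rw [hFb δ _ hjr]
        exact fun h3 => hinf (h3.subset h1)
      · rw [hFb δ _ hjr]
        exact cl_eq.2 (com_le h1 h2 hrel)
    · have hfin : (P 0 (K (D + 1)) : Set Q).Finite := by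
        by_contra hinf
        have hdec : ∀ i j, i ≤ j → j ≤ D + 1 → P 0 (K j) ≤ P 0 (K i) := by
          intro i j hij hj
          have h1 : (K i : ℤ) ≤ K j := by exact_mod_cast hKm i j hij
          have h2 : K j + R ≤ b := hKb j hj
          have h3 : (K j : ℤ) ≤ r := by exact_mod_cast (by omega : K j ≤ r)
          apply hPm
          · linarith
          · linarith
          · positivity
          · push_cast
            linarith
          · push_cast
            linarith
        have hall : ∀ j, j ≤ D → (P 0 (K (j + 1))).relIndex (P 0 (K j)) = 0 := by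
          intro j hj
          by_contra h1
          exact hA ⟨j, hj, fun h2 => hinf (h2.subset (hdec (j + 1) (D + 1) (by omega) le_rfl)), h1⟩
        have h1 := hD (fun i => P 0 (K (min i (D + 1)))) (fun i => ⟨_, _, ?_, rfl⟩) (fun i => hdec _ _ (by omega) (by omega))
          (D + 1)
        · have h2 : {i | i < D + 1 ∧ (P 0 (K (min (i + 1) (D + 1)))).relIndex (P 0 (K (min i (D + 1)))) = 0} =
              (Finset.range (D + 1) : Set ℕ) := by
            ext i
            simp only [Set.mem_ofPred_eq, Finset.coe_range, Set.mem_Iio, and_iff_left_iff_imp]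
            intro hi
            rw [min_eq_left (by omega : i + 1 ≤ D + 1), min_eq_left (by omega : i ≤ D + 1)]
            exact hall i (by omega)
          rw [h2, Set.ncard_coe_finset, Finset.card_range] at h1
          omega
        · have h2 : K (min i (D + 1)) + R ≤ b := hKb _ (by omega)
          have h3 : (K (min i (D + 1)) : ℤ) ≤ r := by exact_mod_cast (by omega : K (min i (D + 1)) ≤ r)
          have h5 : (0 : ℤ) < K (min i (D + 1)) := by exact_mod_cast hK0 _
          apply geo_ne hf0
          · push_cast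
            linarith
          · linarith
          · push_cast
            linarith
      by_cases h : ∃ v : Fin 1 → ℤ, v ≠ 0 ∧ (∀ k, |v k| ≤ a) ∧ ∃ g : G, Trn (r + R) f g v
      · left
        obtain ⟨v, hv, hva, g, hg⟩ := h
        refine ⟨⟨D + 1, by omega⟩, cl (Subgroup.zpowers (p g)), fun δ hδ => ?_⟩
        show if D + 1 ≤ D then _ else Ob2 Q X r a b (fb (bx r δ f 0)) (cl (Subgroup.zpowers (p g)))
        rw [if_neg (by omega)]
        have h1 := hδ 0
        have hδ0 := abs_le.1 h1
        refine ⟨?_, ?_, p g, v 0, ?_, hva 0, ?_, rfl⟩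
        · intro i j hi hj
          rw [fb_bx δ f hi, fb_bx δ f hj]
          have h2 := hf 0 (δ 0 + i) (δ 0 + j) (by
            have := abs_add_le (δ 0) i
            push_cast
            linarith) (by
            have := abs_add_le (δ 0) j
            push_cast
            linarith)
          rw [h2]
          congr 1
          ring
        · rw [hFb δ b (by omega)]
          refine hfin.subset ?_
          have h2 : ((b : ℕ) : ℤ) = K (D + 1) + R := by
            show ((K (D + 1) + R : ℕ) : ℤ) = K (D + 1) + R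
            push_cast
            ring
          have h3 : ((b : ℕ) : ℤ) ≤ r := by exact_mod_cast (by omega : b ≤ r)
          have h5 : (0 : ℤ) < K (D + 1) := by exact_mod_cast hK0 _
          apply hPm
          · rw [h2]
            linarith
          · rw [h2]
            linarith
          · linarith
          · push_cast
            linarith
          · push_cast
            linarith
        · intro h0
          apply hv
          funext k
          rw [Subsingleton.elim k 0, h0]
          rfl
        · intro i hi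
          have h3 : |v 0| ≤ a := hva 0
          have h4 : ((r - a : ℕ) : ℤ) = r - a := by omega
          rw [h4] at hi
          have h5 : |i| ≤ (r : ℤ) := by
            have : (0 : ℤ) ≤ a := Int.natCast_nonneg a
            linarith
          have h6 : |i + v 0| ≤ (r : ℤ) := by
            have := abs_add_le i (v 0)
            linarith
          rw [fb_bx δ f h5, fb_bx δ f h6, ← hact]
          have h7 := hg 0 (δ 0 + i) (by
            have := abs_add_le (δ 0) i
            push_cast
            linarith)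
          rw [h7, add_assoc]
      · right
        intro v hv hva g hg
        exact h ⟨v, hv, hva, g, hg⟩

end Pool.Agent.H75.CX
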