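import Pool.Agent.H75.CX.St0
import Pool.Agent.H75.CX.Fx

/-!
# [H75 CX Stp] the step: subgroups which normalise a subgroup of an edge stabiliser

`step`: let `W` be the tree of `fix_tree'` for `H`, `P'`; apply `step0` to the group `H` acting on `W` with the graph `X.comap Subtype.val`. The stabilisers: subgroups of `stabilizer G v` (`hC.of_injective`). Edges: `vp_inj`. `hcm`:
let `x ≠ y` in `W`, `(Kf H W).relIndex (Ps H x y) = 0`. `P'.subgroupOf H ≤ Kf H W`, so `(P'.subgroupOf H).relIndex (Ps H x y) = 0`. Let `R = (Ps H x y).map H.subtype`, `P = R ⊔ P'`. `(P' ⊓ R).relIndex R = 0`, so `P'.relIndex P = 0`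
(`rel_sup`, `R ≤ H ≤ normalizer P'`). `P ≤ Ps G x y` (`R` and `P'` fix `x` and `y`) and `ps_edge` (for `G`, `X`): `hcm` of the theorem gives `C (commensurator P)`. The commensurator of `Ps H x y` in `H` embeds in it: `com_sub`, `com_sup`.
-/

set_option autoImplicit false

namespace Pool.Agent.H75.CX

open Pool.Agent.H98.FJ Pool.Agent.H93.TR Pool.Agent.H76.VC Pool.Agent.H76.GT

theorem step {C : (G : Type) → [Group G] → Prop} (hC : Inherits C) (hT : Transfer C)
    (hS : ∀ (G : Type) [Group G], Group.IsSolvable G → C G) {G V : Type} [Group G] [MulAction G V]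
    {X : SimpleGraph V} (hX : OnTree G X) (hv : ∀ v : V, C (MulAction.stabilizer G v))
    (hE : ∀ v w : V, X.Adj v w → VP (Ps G v w)) {H P' : Subgroup G} (hH : H.FG)
    (hn : H ≤ Subgroup.normalizer (P' : Set G)) (v0 : V) (h0 : ∀ y ∈ P', y • v0 = v0)
    (hcm : ∀ P : Subgroup G, P' ≤ P → P'.relIndex P = 0 → (∃ v w : V, X.Adj v w ∧ P ≤ Ps G v w) →
      C (Subgroup.Commensurable.commensurator P)) : C H := by
  obtain ⟨W, hW, hY⟩ := fix_tree' hX hn v0 h0
  have hval : ∀ (g : H) (w : W), g • w = w → (g : G) • (w : V) = w := fun g w h =>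
    congrArg (fun x : W => (x : V)) h
  refine step0 hC hT hS (H := H) (V := W) ((Group.fg_iff_subgroup_fg H).2 hH) hY ?_ ?_ ?_
  · intro w
    refine hC.of_injective (H := MulAction.stabilizer G (w : V))
      { toFun := fun x => ⟨((x.1 : H) : G), hval _ _ x.2⟩
        map_one' := rfl
        map_mul' := fun _ _ => rfl } ?_ (hv w)
    intro a b hab
    exact Subtype.ext (Subtype.ext (congrArg (fun y : MulAction.stabilizer G (w : V) => (y : G)) hab))
  · intro v w h
    let ψ : Ps H v w →* Ps G (v : V) (w : V) :=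
      { toFun := fun x => ⟨((x.1 : H) : G), hval _ _ x.2.1, hval _ _ x.2.2⟩
        map_one' := rfl
        map_mul' := fun _ _ => rfl }
    refine vp_inj ψ ?_ (hE v w h)
    intro a b hab
    exact Subtype.ext (Subtype.ext (congrArg (fun y : Ps G (v : V) (w : V) => (y : G)) hab))
  · intro x y hxy h
    have hle : P'.subgroupOf H ≤ Kf H W := by
      intro g hg
      rw [Subgroup.mem_subgroupOf] at hg
      refine mem_kf.2 fun w => Subtype.ext ?_
      exact (hW w).1 w.2 _ hg
    have h1 : (P'.subgroupOf H).relIndex (Ps H x y) = 0 := Subgroup.relIndex_eq_zero_of_le_left hle h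
    have hRH : (Ps H x y).map H.subtype ≤ H := by
      rintro _ ⟨g, -, rfl⟩
      exact g.2
    have hRn : (Ps H x y).map H.subtype ≤ Subgroup.normalizer (P' : Set G) := hRH.trans hn
    have hR : ((Ps H x y).map H.subtype).subgroupOf H = Ps H x y :=
      Subgroup.comap_map_eq_self_of_injective H.subtype_injective _
    have h2 : (P' ⊓ (Ps H x y).map H.subtype).relIndex ((Ps H x y).map H.subtype) = 0 := by
      rw [Subgroup.inf_relIndex_right, ← Subgroup.relIndex_subgroupOf hRH, hR]
      exact h1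
    have h3 := rel_sup hRn h2
    obtain ⟨v, w, hadj, hvw⟩ := ps_edge hX (x := (x : V)) (y := (y : V)) fun he => hxy (Subtype.ext he)
    have h4 : (Ps H x y).map H.subtype ⊔ P' ≤ Ps G v w := by
      refine (sup_le ?_ ?_ : _ ≤ Ps G (x : V) (y : V)).trans hvw
      · rintro _ ⟨g, hg, rfl⟩
        exact ⟨hval g x hg.1, hval g y hg.2⟩
      · intro g hg
        exact ⟨(hW x).1 x.2 g hg, (hW y).1 y.2 g hg⟩
    have h5 := hcm _ le_sup_right h3 ⟨v, w, hadj, h4⟩
    refine hC.of_injective (H := Subgroup.Commensurable.commensurator ((Ps H x y).map H.subtype ⊔ P'))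
      { toFun := fun g => ⟨((g.1 : H) : G), com_sup hRn (hn g.1.2) ((com_sub (Ps H x y) g.1).1 g.2)⟩
        map_one' := rfl
        map_mul' := fun _ _ => rfl } ?_ h5
    intro a b hab
    exact Subtype.ext (Subtype.ext (congrArg (fun y : Subgroup.Commensurable.commensurator
      ((Ps H x y).map H.subtype ⊔ P') => (y : G)) hab))

end Pool.Agent.H75.CX
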